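import Pool.Agent.Work.MP_1ce445_k6.Interface

/-! Block KC1: the six types with exactly two points -/

namespace Pool.Agent.Work.MP_1ce445_k6

open Finset Pool.Agent.Work.MP_1ce445_co_56 Pool.Agent.Work.MP_1ce445_lin

theorem stmt_KC1 (hKFE : Stmt_KFE) : Stmt_KC1 := by
  classical
  intro V _ k M T W c κ hS x hK h2
  obtain ⟨hF1, -, -⟩ := hKFE M T W c κ hS
  have h1 : ∀ s : Finset (Fin 4), s.card = 2 → (ns T x s : ℝ) ≤ c * Fintype.card V := by
    intro s hs
    have hsc : sᶜ.card = 2 := by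
      rw [Finset.card_compl, hs, Fintype.card_fin]
    obtain ⟨i, j, hij, hsij⟩ := Finset.card_eq_two.mp hsc
    obtain ⟨v0, hv0⟩ := hK.pre i j hij
    refine le_trans ?_ (hF1 v0)
    have hi : i ∈ sᶜ := by rw [hsij]; exact Finset.mem_insert_self _ _
    have hj : j ∈ sᶜ := by
      rw [hsij]; exact Finset.mem_insert_of_mem (Finset.mem_singleton_self _)
    have hsub : univ.filter (fun v => Sx T x v = s) ⊆
        univ.filter (fun w => T v0 ∩ T w = ∅) := by
      intro v hv
      rw [Finset.mem_filter] at hv ⊢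
      refine ⟨hv.1, ?_⟩
      rw [Finset.eq_empty_iff_forall_notMem]
      intro y hy
      rw [Finset.mem_inter, hv0] at hy
      obtain ⟨hy1, hy2⟩ := hy
      rw [Finset.mem_insert, Finset.mem_singleton] at hy1
      rcases hy1 with rfl | rfl
      · have h3 : i ∈ Sx T x v := Finset.mem_filter.mpr ⟨Finset.mem_univ _, hy2⟩
        rw [hv.2] at h3
        exact (Finset.mem_compl.mp hi) h3
      · have h3 : j ∈ Sx T x v := Finset.mem_filter.mpr ⟨Finset.mem_univ _, hy2⟩
        rw [hv.2] at h3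
        exact (Finset.mem_compl.mp hj) h3
    have h4 := Finset.card_le_card hsub
    unfold ns
    exact_mod_cast h4
  refine ⟨h1, ?_⟩
  obtain ⟨P, hP⟩ : ∃ P : Finset (Finset (Fin 4)), P = Finset.powersetCard 2 univ := ⟨_, rfl⟩
  have hPm : ∀ s, s ∈ P ↔ s.card = 2 := by
    intro s
    rw [hP, Finset.mem_powersetCard]
    exact ⟨fun h => h.2, fun h => ⟨Finset.subset_univ _, h⟩⟩
  have hPc : P.card = 6 := by
    rw [hP, Finset.card_powersetCard, Finset.card_univ, Fintype.card_fin]; rfl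
  obtain ⟨B, hB⟩ : ∃ B : Finset V, B = univ.filter (fun v => (Sx T x v).card = 2) := ⟨_, rfl⟩
  have hBm : ∀ v, v ∈ B ↔ (Sx T x v).card = 2 := by
    intro v
    rw [hB, Finset.mem_filter]
    exact ⟨fun h => h.2, fun h => ⟨Finset.mem_univ _, h⟩⟩
  have hmem : ∀ v ∈ B, Sx T x v ∈ P := fun v hv => (hPm _).mpr ((hBm v).mp hv)
  have hfil : ∀ s ∈ P, B.filter (fun v => Sx T x v = s) = univ.filter (fun v => Sx T x v = s) := by
    intro s hs
    ext v
    rw [Finset.mem_filter, Finset.mem_filter, hBm]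
    constructor
    · rintro ⟨_, h⟩
      exact ⟨Finset.mem_univ _, h⟩
    · rintro ⟨_, h⟩
      exact ⟨by rw [h]; exact (hPm s).mp hs, h⟩
  have hsum : ∑ v ∈ B, (ns T x (Sx T x v)ᶜ : ℝ) = ∑ s ∈ P, (ns T x s : ℝ) * ns T x sᶜ := by
    rw [← Finset.sum_fiberwise_of_maps_to hmem]
    refine Finset.sum_congr rfl fun s hs => ?_
    rw [hfil s hs]
    have h5 : ∑ v ∈ univ.filter (fun v => Sx T x v = s), (ns T x (Sx T x v)ᶜ : ℝ) =
        ∑ v ∈ univ.filter (fun v => Sx T x v = s), (ns T x sᶜ : ℝ) := by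
      refine Finset.sum_congr rfl fun v hv => ?_
      rw [(Finset.mem_filter.mp hv).2]
    rw [h5, Finset.sum_const, nsmul_eq_mul]
    rfl
  have hcB : (B.card : ℝ) = ∑ s ∈ P, (ns T x s : ℝ) := by
    have h6 : (B.card : ℝ) = ∑ v ∈ B, (1 : ℝ) := by simp
    rw [h6, ← Finset.sum_fiberwise_of_maps_to hmem]
    refine Finset.sum_congr rfl fun s hs => ?_
    rw [hfil s hs]
    unfold ns
    simp
  have hcc : ∑ s ∈ P, (ns T x sᶜ : ℝ) = ∑ s ∈ P, (ns T x s : ℝ) := by
    have hcl : ∀ s ∈ P, sᶜ ∈ P := by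
      intro s hs
      rw [hPm, Finset.card_compl, (hPm s).mp hs, Fintype.card_fin]
    exact Finset.sum_nbij' (fun s => sᶜ) (fun s => sᶜ) hcl hcl
      (fun s _ => compl_compl s) (fun s _ => compl_compl s) (fun s _ => rfl)
  have hcA : (B.card : ℝ) + nA T x = Fintype.card V := by
    have h7 := Finset.card_filter_add_card_filter_not (s := (univ : Finset V))
      (fun v => (Sx T x v).card = 2)
    have h8 : univ.filter (fun v => ¬ (Sx T x v).card = 2) =
        univ.filter (fun v => 3 ≤ (Sx T x v).card) := by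
      ext v
      rw [Finset.mem_filter, Finset.mem_filter]
      have := h2 v
      constructor
      · rintro ⟨h, h'⟩
        exact ⟨h, by omega⟩
      · rintro ⟨h, h'⟩
        exact ⟨h, by omega⟩
    rw [h8, ← hB, Finset.card_univ] at h7
    unfold nA
    exact_mod_cast h7
  rw [← hB, hsum]
  have hterm : ∀ s ∈ P, c * Fintype.card V * ((ns T x s : ℝ) + ns T x sᶜ) -
      c ^ 2 * (Fintype.card V : ℝ) ^ 2 ≤ (ns T x s : ℝ) * ns T x sᶜ := by
    intro s hs
    have hs2 := (hPm s).mp hs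
    have hsc : sᶜ.card = 2 := by
      rw [Finset.card_compl, hs2, Fintype.card_fin]
    have a1 := h1 s hs2
    have a2 := h1 sᶜ hsc
    nlinarith [mul_nonneg (sub_nonneg.mpr a1) (sub_nonneg.mpr a2)]
  have hfin := Finset.sum_le_sum hterm
  rw [Finset.sum_sub_distrib, ← Finset.mul_sum, Finset.sum_add_distrib, hcc, ← hcB,
    Finset.sum_const, hPc, nsmul_eq_mul] at hfin
  have hB' : (B.card : ℝ) = Fintype.card V - nA T x := by linarith
  rw [hB'] at hfin
  refine le_trans (le_of_eq ?_) hfin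
  push_cast
  ring

end Pool.Agent.Work.MP_1ce445_k6
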