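import Pool.Agent.Work.MP_1ce445_k6.Interface

/-!
MP_1ce445_co, K4 leaf, block KC2 (helper45): double counting of the non-neighbours between the vertices with at
least three and with exactly two of the four points.
-/

namespace Pool.Agent.Work.MP_1ce445_k6

open Finset Pool.Agent.Work.MP_1ce445_co_56 Pool.Agent.Work.MP_1ce445_lin

open Classical in
theorem KC2_double {V : Type} (A B : Finset V) (W : V → V → Prop) :
    ∑ w ∈ B, ((A.filter (fun v => ¬ W w v)).card : ℝ) =
      ∑ v ∈ A, ((B.filter (fun w => ¬ W w v)).card : ℝ) := by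
  have h1 : ∀ w, ((A.filter (fun v => ¬ W w v)).card : ℝ) = ∑ v ∈ A, if ¬ W w v then (1 : ℝ) else 0 := by
    intro w
    rw [Finset.card_filter, Nat.cast_sum]
    exact Finset.sum_congr rfl (fun v _ => by split_ifs <;> simp)
  have h2 : ∀ v, ((B.filter (fun w => ¬ W w v)).card : ℝ) = ∑ w ∈ B, if ¬ W w v then (1 : ℝ) else 0 := by
    intro v
    rw [Finset.card_filter, Nat.cast_sum]
    exact Finset.sum_congr rfl (fun w _ => by split_ifs <;> simp)
  rw [Finset.sum_congr rfl (fun w _ => h1 w), Finset.sum_congr rfl (fun v _ => h2 v)]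
  exact Finset.sum_comm

open Classical in
theorem KC2_lower {V : Type} [Fintype V] (A B : Finset V) (W : V → V → Prop) (c κ : ℝ)
    (hAB : ∀ v, v ∈ A ∨ v ∈ B) (hsymm : ∀ v w, W v w → W w v)
    (upp : ∀ v, dW W v ≤ (1 - c + κ) * Fintype.card V) (v : V) :
    (c - κ) * Fintype.card V - (A.card : ℝ) ≤ ((B.filter (fun w => ¬ W w v)).card : ℝ) := by
  have h1 : ((univ.filter (fun w => W v w)).card : ℝ) +
      ((univ.filter (fun w => ¬ W v w)).card : ℝ) = Fintype.card V := by
    have := Finset.card_filter_add_card_filter_not (s := (univ : Finset V)) (fun w => W v w)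
    rw [Finset.card_univ] at this
    exact_mod_cast this
  have h2 : ((univ.filter (fun w => W v w)).card : ℝ) ≤ (1 - c + κ) * Fintype.card V := upp v
  have h3 : (univ.filter (fun w => ¬ W v w)) ⊆ A ∪ B.filter (fun w => ¬ W w v) := by
    intro w hw
    rw [Finset.mem_filter] at hw
    rw [Finset.mem_union]
    rcases hAB w with h | h
    · exact Or.inl h
    · refine Or.inr ?_
      rw [Finset.mem_filter]
      exact ⟨h, fun hh => hw.2 (hsymm _ _ hh)⟩
  have h4 : ((univ.filter (fun w => ¬ W v w)).card : ℝ) ≤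
      (A.card : ℝ) + ((B.filter (fun w => ¬ W w v)).card : ℝ) := by
    have := (Finset.card_le_card h3).trans (Finset.card_union_le _ _)
    exact_mod_cast this
  linarith

open Classical in
theorem stmt_KC2 (h1 : Stmt_KC1) : Stmt_KC2 := by
  intro V _ k M T W c κ hS x hK h2 g hg
  obtain ⟨-, hsum⟩ := h1 M T W c κ hS x hK h2
  set A : Finset V := univ.filter (fun v => 3 ≤ (Sx T x v).card) with hA
  set B : Finset V := univ.filter (fun v => (Sx T x v).card = 2) with hB
  have hnA : (nA T x : ℝ) = (A.card : ℝ) := rfl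
  have hAB : ∀ v, v ∈ A ∨ v ∈ B := by
    intro v
    rw [hA, hB, Finset.mem_filter, Finset.mem_filter]
    rcases Nat.lt_or_ge (Sx T x v).card 3 with h | h
    · exact Or.inr ⟨Finset.mem_univ _, by have := h2 v; omega⟩
    · exact Or.inl ⟨Finset.mem_univ _, h⟩
  have hdisj : Disjoint A B := by
    rw [Finset.disjoint_left]
    intro v hv hw
    rw [hA, Finset.mem_filter] at hv
    rw [hB, Finset.mem_filter] at hw
    have := hv.2
    have := hw.2
    omega
  have hunion : A ∪ B = univ := by
    ext v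
    simp only [Finset.mem_union, Finset.mem_univ, iff_true]
    exact hAB v
  have hcard : (A.card : ℝ) + (B.card : ℝ) = Fintype.card V := by
    have := Finset.card_union_of_disjoint hdisj
    rw [hunion, Finset.card_univ] at this
    exact_mod_cast this.symm
  have hY1 : (A.card : ℝ) * ((c - κ) * Fintype.card V - (A.card : ℝ)) ≤
      ∑ v ∈ A, ((B.filter (fun w => ¬ W w v)).card : ℝ) := by
    have : ∑ v ∈ A, ((c - κ) * Fintype.card V - (A.card : ℝ)) ≤
        ∑ v ∈ A, ((B.filter (fun w => ¬ W w v)).card : ℝ) :=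
      Finset.sum_le_sum (fun v _ => KC2_lower A B W c κ hAB hS.symm hS.upp v)
    rwa [Finset.sum_const, nsmul_eq_mul] at this
  have hY2 : ∑ w ∈ B, ((A.filter (fun v => ¬ W w v)).card : ℝ) ≤
      ∑ w ∈ B, (c * Fintype.card V - ns T x (Sx T x w)ᶜ + g w) := by
    refine Finset.sum_le_sum (fun w hw => ?_)
    have hw2 : (Sx T x w).card = 2 := by
      rw [hB, Finset.mem_filter] at hw
      exact hw.2
    have h := hg w hw2
    have hEq : A.filter (fun v => ¬ W w v) =
        univ.filter (fun v => 3 ≤ (Sx T x v).card ∧ ¬ W w v) := by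
      rw [hA, Finset.filter_filter]
    rw [hEq]
    exact h
  rw [KC2_double A B W] at hY2
  have hY3 : ∑ w ∈ B, (c * Fintype.card V - ns T x (Sx T x w)ᶜ + g w) =
      (B.card : ℝ) * (c * Fintype.card V) - ∑ w ∈ B, (ns T x (Sx T x w)ᶜ : ℝ) + ∑ w ∈ B, g w := by
    rw [Finset.sum_add_distrib, Finset.sum_sub_distrib, Finset.sum_const, nsmul_eq_mul]
  rw [hY3] at hY2
  rw [hnA] at hsum ⊢
  have hB' : (B.card : ℝ) = Fintype.card V - (A.card : ℝ) := by linarith
  rw [hB'] at hY2
  nlinarith [hY1, hY2, hsum]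

end Pool.Agent.Work.MP_1ce445_k6
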