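import Pool.Agent.Work.MP_1ce445_k6.Interface

/-!
MP_1ce445_co, K4 leaf, block KC3.
-/

namespace Pool.Agent.Work.MP_1ce445_k6

open Finset Pool.Agent.Work.MP_1ce445_co_56 Pool.Agent.Work.MP_1ce445_lin

open Classical in
theorem KC3_out {V : Type} [Fintype V] {k : ℕ} (M : Finset (Fin k)) (T : V → Finset (Fin k))
    (W : V → V → Prop) (c κ : ℝ) (S : Sy M T W c κ) (x : Fin 4 → Fin k) :
    ((univ.filter (fun w => ¬ T w ⊆ univ.image x)).card : ℝ) ≤
      Fintype.card V * rh M T x := by
  have hN : (0 : ℝ) < Fintype.card V := by exact_mod_cast S.pos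
  have h1 : univ.filter (fun w => ¬ T w ⊆ univ.image x) ⊆
      (M \ univ.image x).biUnion (fun j => univ.filter (fun v => j ∈ T v)) := by
    intro w hw
    rw [Finset.mem_filter] at hw
    obtain ⟨j, hj1, hj2⟩ := Finset.not_subset.mp hw.2
    rw [Finset.mem_biUnion]
    exact ⟨j, Finset.mem_sdiff.mpr ⟨S.sub w hj1, hj2⟩, by simp [hj1]⟩
  have h2 := (Finset.card_le_card h1).trans Finset.card_biUnion_le
  have h3 : (Fintype.card V : ℝ) * rh M T x =
      ∑ j ∈ M \ univ.image x, ((univ.filter (fun v => j ∈ T v)).card : ℝ) := by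
    unfold rh
    rw [Finset.mul_sum]
    refine Finset.sum_congr rfl (fun j _ => ?_)
    unfold pr
    field_simp
  rw [h3]
  exact_mod_cast h2

theorem stmt_KC3 (hKC1 : Stmt_KC1) (hKC2 : Stmt_KC2) : Stmt_KC3 := by
  classical
  intro V _ k M T W c κ S x K hall
  have hN : (0 : ℝ) < Fintype.card V := by exact_mod_cast S.pos
  have hnA : (nA T x : ℝ) ≤ Fintype.card V := by
    unfold nA
    exact_mod_cast Finset.card_le_univ _
  have hnA0 : (0 : ℝ) ≤ nA T x := Nat.cast_nonneg _
  set g : V → ℝ := fun w => if T w ⊆ univ.image x then 0 else (nA T x : ℝ) with hg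
  have hnon : ∀ w, ((univ.filter (fun v => ¬ W w v)).card : ℝ) ≤ c * Fintype.card V := by
    intro w
    have h1 := S.low w
    unfold dW at h1
    have h2 : (univ.filter (fun v => W w v)).card + (univ.filter (fun v => ¬ W w v)).card =
        Fintype.card V := by
      rw [Finset.card_filter_add_card_filter_not]
      exact Finset.card_univ
    have h3 : ((univ.filter (fun v => W w v)).card : ℝ) +
        ((univ.filter (fun v => ¬ W w v)).card : ℝ) = Fintype.card V := by exact_mod_cast h2
    have h4 : ((univ.filter (fun v => W w v)).card : ℝ) ≥ (1 - c) * Fintype.card V := by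
      convert h1
    linarith
  have hmain := hKC2 M T W c κ S x K hall g (by
    intro w hw
    have hc2 : ((Sx T x w)ᶜ).card = 2 := by
      rw [Finset.card_compl, hw]
      simp
    by_cases hsub : T w ⊆ univ.image x
    · have hgw : g w = 0 := by rw [hg]; simp only [if_pos hsub]
      rw [hgw]
      have hdis : Disjoint (univ.filter (fun v => 3 ≤ (Sx T x v).card ∧ ¬ W w v))
          (univ.filter (fun v => Sx T x v = (Sx T x w)ᶜ)) := by
        rw [Finset.disjoint_left]
        intro v h1 h2
        rw [Finset.mem_filter] at h1 h2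
        have := h1.2.1
        rw [h2.2, hc2] at this
        omega
      have hsub2 : (univ.filter (fun v => 3 ≤ (Sx T x v).card ∧ ¬ W w v)) ∪
          (univ.filter (fun v => Sx T x v = (Sx T x w)ᶜ)) ⊆
          univ.filter (fun v => ¬ W w v) := by
        intro v hv
        rw [Finset.mem_union, Finset.mem_filter, Finset.mem_filter] at hv
        rw [Finset.mem_filter]
        refine ⟨Finset.mem_univ _, ?_⟩
        rcases hv with hv | hv
        · exact hv.2.2
        · intro hW
          obtain ⟨j, hj⟩ := S.meet w v hW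
          rw [Finset.mem_inter] at hj
          obtain ⟨i, -, hi⟩ := Finset.mem_image.mp (hsub hj.1)
          have h1 : i ∈ Sx T x w := by
            unfold Sx
            rw [Finset.mem_filter]
            exact ⟨Finset.mem_univ _, by rw [hi]; exact hj.1⟩
          have h2 : i ∈ Sx T x v := by
            unfold Sx
            rw [Finset.mem_filter]
            exact ⟨Finset.mem_univ _, by rw [hi]; exact hj.2⟩
          rw [hv.2, Finset.mem_compl] at h2
          exact h2 h1
      have hcard := Finset.card_le_card hsub2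
      rw [Finset.card_union_of_disjoint hdis] at hcard
      have hcard' : ((univ.filter (fun v => 3 ≤ (Sx T x v).card ∧ ¬ W w v)).card : ℝ) +
          ((univ.filter (fun v => Sx T x v = (Sx T x w)ᶜ)).card : ℝ) ≤
          ((univ.filter (fun v => ¬ W w v)).card : ℝ) := by exact_mod_cast hcard
      have hns : (ns T x (Sx T x w)ᶜ : ℝ) =
          ((univ.filter (fun v => Sx T x v = (Sx T x w)ᶜ)).card : ℝ) := by
        unfold ns
        congr
      have := hnon w
      have hgoal : ((univ.filter (fun v => 3 ≤ (Sx T x v).card ∧ ¬ W w v)).card : ℝ) ≤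
        c * Fintype.card V - ns T x (Sx T x w)ᶜ + 0 := by
        rw [hns]
        linarith
      convert hgoal
    · have hgw : g w = nA T x := by rw [hg]; simp only [if_neg hsub]
      rw [hgw]
      have h1 : ((univ.filter (fun v => 3 ≤ (Sx T x v).card ∧ ¬ W w v)).card : ℝ) ≤
          nA T x := by
        unfold nA
        have : (univ.filter (fun v => 3 ≤ (Sx T x v).card ∧ ¬ W w v)).card ≤
            (univ.filter (fun v => 3 ≤ (Sx T x v).card)).card := by
          apply Finset.card_le_card
          intro v hv
          rw [Finset.mem_filter] at hv ⊢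
          exact ⟨hv.1, hv.2.1⟩
        exact_mod_cast this
      have h2 := (hKC1 M T W c κ S x K hall).1 _ hc2
      have hgoal : ((univ.filter (fun v => 3 ≤ (Sx T x v).card ∧ ¬ W w v)).card : ℝ) ≤
        c * Fintype.card V - ns T x (Sx T x w)ᶜ + nA T x := by linarith
      convert hgoal)
  have hsum : ∑ w ∈ univ.filter (fun w => (Sx T x w).card = 2), g w ≤
      (nA T x : ℝ) * (Fintype.card V * rh M T x) := by
    calc ∑ w ∈ univ.filter (fun w => (Sx T x w).card = 2), g w
        ≤ ∑ w, g w := by
          apply Finset.sum_le_sum_of_subset_of_nonneg (Finset.filter_subset _ _)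
          intro w _ _
          rw [hg]
          dsimp only
          split_ifs
          · exact le_refl _
          · exact hnA0
      _ = ((univ.filter (fun w => ¬ T w ⊆ univ.image x)).card : ℝ) * nA T x := by
          rw [hg]
          rw [← nsmul_eq_mul, ← Finset.sum_const, Finset.sum_filter]
          refine Finset.sum_congr rfl (fun w _ => ?_)
          by_cases h : T w ⊆ univ.image x
          · simp [h]
          · simp [h]
      _ ≤ (Fintype.card V * rh M T x) * nA T x :=
          mul_le_mul_of_nonneg_right (KC3_out M T W c κ S x) hnA0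
      _ = (nA T x : ℝ) * (Fintype.card V * rh M T x) := by ring
  have hfin : c * (1 - 6 * c) * (Fintype.card V : ℝ) ^ 2 ≤
      (nA T x : ℝ) ^ 2 + κ * (Fintype.card V : ℝ) ^ 2 +
        (nA T x : ℝ) * (Fintype.card V * rh M T x) := by
    have h1 : κ * nA T x * Fintype.card V ≤ κ * (Fintype.card V : ℝ) ^ 2 := by
      have := mul_le_mul_of_nonneg_left hnA (mul_nonneg S.kap hN.le)
      nlinarith [this]
    linarith
  have hN2 : (0 : ℝ) < (Fintype.card V : ℝ) ^ 2 := by positivity
  have hdiv : c * (1 - 6 * c) ≤ ((nA T x : ℝ) ^ 2 + κ * (Fintype.card V : ℝ) ^ 2 +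
        (nA T x : ℝ) * (Fintype.card V * rh M T x)) / (Fintype.card V : ℝ) ^ 2 := by
    rw [le_div_iff₀ hN2]
    exact hfin
  refine hdiv.trans (le_of_eq ?_)
  field_simp
  ring

end Pool.Agent.Work.MP_1ce445_k6
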