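import Pool.Agent.Work.MP_1ce445_k6.Interface

set_option autoImplicit false

/-! # Block KCA: some `T v` contains at most one of the four points -/

namespace Pool.Agent.Work.MP_1ce445_k6

open Finset Pool.Agent.Work.MP_1ce445_co_56 Pool.Agent.Work.MP_1ce445_lin

theorem KCA_sub {V : Type} [Fintype V] {k : ℕ} {M : Finset (Fin k)} {T : V → Finset (Fin k)}
    {W : V → V → Prop} {c κ : ℝ} (h : Sy M T W c κ) {x : Fin 4 → Fin k} (v : V)
    (S : Finset (Fin 4)) (hS : Sx T x v = S) :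
    T v \ S.image x ⊆ M \ univ.image x := by
  classical
  intro j hj
  rw [Finset.mem_sdiff] at hj ⊢
  refine ⟨h.sub v hj.1, ?_⟩
  intro hji
  rw [Finset.mem_image] at hji
  obtain ⟨i, _, rfl⟩ := hji
  apply hj.2
  rw [Finset.mem_image]
  refine ⟨i, ?_, rfl⟩
  rw [← hS]
  exact Finset.mem_filter.2 ⟨Finset.mem_univ _, hj.1⟩

theorem stmt_KCA (h1 : Stmt_KRG) (h2 : Stmt_KFE) (h3 : Stmt_KSU) (h4 : Stmt_KPR) : Stmt_KCA := by
  classical
  intro V _ k M T W c κ h x hx v hv
  obtain ⟨_, hp, hdeg⟩ := h2 M T W c κ h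
  obtain ⟨hsum, _⟩ := h3 M T W c κ h x hx
  obtain ⟨hP1, hP2⟩ := h4 M T W c κ h x hx
  have hq : ∀ j, 0 ≤ 1 - pr T j := fun j => by linarith [(hp j).2]
  have hcl := h.cl
  have hcu := h.cu
  have hS0 : 0 ≤ ∑ i, (1 - pr T (x i)) := Finset.sum_nonneg fun i _ => hq _
  rcases Nat.lt_or_ge (Sx T x v).card 1 with h0 | h0
  · -- no point
    have hemp : Sx T x v = ∅ := Finset.card_eq_zero.1 (by omega)
    have hsub := KCA_sub h (x := x) v ∅ hemp
    rw [Finset.image_empty, Finset.sdiff_empty] at hsub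
    have hrh : 1 - c ≤ rh M T x := by
      refine (hdeg v).trans ?_
      exact Finset.sum_le_sum_of_subset_of_nonneg hsub fun j _ _ => (hp j).1
    have hp2 : 0 ≤ p2 M T x := Finset.sum_nonneg fun j _ => sq_nonneg _
    have he : Real.exp (-(rh M T x + p2 M T x / 2)) ≤ 4 / 5 := by
      have h5 : Real.exp (-(rh M T x + p2 M T x / 2)) ≤ Real.exp (-(5 / 6 : ℝ)) := by
        apply Real.exp_le_exp.2
        linarith
      have h6 : Real.exp (-(5 / 6 : ℝ)) ≤ 4 / 5 := by
        rw [Real.exp_neg]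
        have h7 : (5 / 6 : ℝ) + 1 ≤ Real.exp (5 / 6) := Real.add_one_le_exp _
        rw [inv_le_comm₀ (Real.exp_pos _) (by norm_num)]
        linarith
      exact h5.trans h6
    have hpow : ((∑ i, (1 - pr T (x i))) / 4) ^ 4 ≤ ((1 + 6 * c) / 4) ^ 4 :=
      pow_le_pow_left₀ (by linarith) (by linarith) 4
    calc ∏ j ∈ M, (1 - pr T j) ≤ _ := hP1
      _ ≤ ((1 + 6 * c) / 4) ^ 4 * (4 / 5) :=
        mul_le_mul hpow he (Real.exp_pos _).le (by positivity)
      _ = _ := by ring
  · -- one point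
    obtain ⟨i, hi⟩ := Finset.card_eq_one.1 (le_antisymm hv h0)
    have hsub := KCA_sub h (x := x) v {i} hi
    rw [Finset.image_singleton] at hsub
    have hmem : x i ∈ T v := by
      have : i ∈ Sx T x v := by rw [hi]; exact Finset.mem_singleton_self i
      exact (Finset.mem_filter.1 this).2
    have hrh : (1 - pr T (x i)) - c ≤ rh M T x := by
      have h5 : ∑ j ∈ T v \ {x i}, pr T j ≤ rh M T x :=
        Finset.sum_le_sum_of_subset_of_nonneg hsub fun j _ _ => (hp j).1
      have h6 : ∑ j ∈ T v \ {x i}, pr T j + pr T (x i) = ∑ j ∈ T v, pr T j := by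
        have := Finset.sum_sdiff (f := fun j => pr T j) (Finset.singleton_subset_iff.2 hmem)
        rw [Finset.sum_singleton] at this
        exact this
      have h7 := hdeg v
      linarith
    have ha0 : 0 ≤ 1 - pr T (x i) := hq _
    have ha1 : 1 - pr T (x i) ≤ 1 := by linarith [(hp (x i)).1]
    have hrest : 0 ≤ (∑ i', (1 - pr T (x i'))) - (1 - pr T (x i)) := by
      have := Finset.single_le_sum (f := fun i' => 1 - pr T (x i')) (fun i' _ => hq _)
        (Finset.mem_univ i)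
      linarith
    have hcube : (((∑ i', (1 - pr T (x i'))) - (1 - pr T (x i))) / 3) ^ 3 ≤
        ((1 + 6 * c - (1 - pr T (x i))) / 3) ^ 3 :=
      pow_le_pow_left₀ (by linarith) (by linarith) 3
    have he : Real.exp (-(rh M T x)) ≤ Real.exp (-((1 - pr T (x i)) - c)) :=
      Real.exp_le_exp.2 (by linarith)
    calc ∏ j ∈ M, (1 - pr T j) ≤ _ := hP2 i
      _ ≤ (1 - pr T (x i)) * ((1 + 6 * c - (1 - pr T (x i))) / 3) ^ 3 *
          Real.exp (-((1 - pr T (x i)) - c)) := by
        refine mul_le_mul (mul_le_mul_of_nonneg_left hcube ha0) he (Real.exp_pos _).le ?_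
        refine mul_nonneg ha0 (pow_nonneg ?_ 3)
        linarith
      _ ≤ _ := h1 c (1 - pr T (x i)) hcl hcu ha0 ha1

end Pool.Agent.Work.MP_1ce445_k6
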