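import Pool.Agent.Work.MP_1ce445_k6.Interface

/-! # Block KFE: basic consequences for the set systems of the K4 leaf -/

namespace Pool.Agent.Work.MP_1ce445_k6

open Finset Pool.Agent.Work.MP_1ce445_co_56 Pool.Agent.Work.MP_1ce445_lin

theorem KFE_pr {V : Type} [Fintype V] {k : ℕ} (T : V → Finset (Fin k)) (j : Fin k)
    (hN : 0 < Fintype.card V) :
    pr T j * Fintype.card V = ((univ.filter (fun v => j ∈ T v)).card : ℝ) := by
  have h : (Fintype.card V : ℝ) ≠ 0 := by exact_mod_cast hN.ne'
  unfold pr
  rw [div_mul_cancel₀ _ h]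

open Classical in
theorem KFE_dW {V : Type} [Fintype V] (W : V → V → Prop) (v : V) :
    dW W v = ((univ.filter (fun w => W v w)).card : ℝ) := by
  unfold dW
  congr 1

theorem KFE_deg {V : Type} [Fintype V] {k : ℕ} {M : Finset (Fin k)} {T : V → Finset (Fin k)}
    {W : V → V → Prop} {c κ : ℝ} (h : Sy M T W c κ) (v : V) :
    dW W v ≤ ∑ j ∈ T v, ((univ.filter (fun w => j ∈ T w)).card : ℝ) := by
  classical
  have h1 : (univ.filter (fun w => W v w)) ⊆
      (T v).biUnion (fun j => univ.filter (fun w => j ∈ T w)) := by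
    intro w hw
    have h2 : W v w := (Finset.mem_filter.1 hw).2
    obtain ⟨j, hj⟩ := h.meet v w h2
    rw [Finset.mem_inter] at hj
    rw [Finset.mem_biUnion]
    exact ⟨j, hj.1, Finset.mem_filter.2 ⟨Finset.mem_univ w, hj.2⟩⟩
  have h2 : (univ.filter (fun w => W v w)).card ≤
      ∑ j ∈ T v, (univ.filter (fun w => j ∈ T w)).card :=
    (Finset.card_le_card h1).trans Finset.card_biUnion_le
  have h3 : ((univ.filter (fun w => W v w)).card : ℝ) ≤
      ((∑ j ∈ T v, (univ.filter (fun w => j ∈ T w)).card : ℕ) : ℝ) := by exact_mod_cast h2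
  rw [Nat.cast_sum] at h3
  rw [KFE_dW W v]
  convert h3 using 2

theorem stmt_KFE : Stmt_KFE := by
  intro V _ k M T W c κ h
  have hN : (0 : ℝ) < Fintype.card V := by exact_mod_cast h.pos
  refine ⟨?_, ?_, ?_⟩
  · intro v
    classical
    have h1 : (univ.filter (fun w => T v ∩ T w = ∅)) ⊆ univ.filter (fun w => ¬ W v w) := by
      intro w hw
      have h2 : T v ∩ T w = ∅ := (Finset.mem_filter.1 hw).2
      refine Finset.mem_filter.2 ⟨Finset.mem_univ w, fun h3 => ?_⟩
      have h4 := h.meet v w h3
      rw [h2] at h4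
      exact Finset.not_nonempty_empty h4
    have h2 : (univ.filter (fun w => W v w)).card + (univ.filter (fun w => ¬ W v w)).card =
        Fintype.card V := by
      rw [Finset.card_filter_add_card_filter_not, Finset.card_univ]
    have h3 : ((univ.filter (fun w => W v w)).card : ℝ) +
        ((univ.filter (fun w => ¬ W v w)).card : ℝ) = Fintype.card V := by exact_mod_cast h2
    have h4 : ((univ.filter (fun w => T v ∩ T w = ∅)).card : ℝ) ≤
        ((univ.filter (fun w => ¬ W v w)).card : ℝ) := by exact_mod_cast Finset.card_le_card h1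
    have h5 := h.low v
    have h6 : dW W v = ((univ.filter (fun w => W v w)).card : ℝ) := by
      rw [KFE_dW W v]
    rw [h6] at h5
    linarith
  · intro j
    constructor
    · unfold pr
      positivity
    · have h2 : (univ.filter (fun v => j ∈ T v)).card ≤ Fintype.card V := by
        rw [← Finset.card_univ]
        exact Finset.card_le_card (Finset.filter_subset _ _)
      have h3 : ((univ.filter (fun v => j ∈ T v)).card : ℝ) ≤ Fintype.card V := by
        exact_mod_cast h2
      unfold pr
      rw [div_le_one hN]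
      exact h3
  · intro v
    have h1 := (h.low v).trans (KFE_deg h v)
    have h2 : ∑ j ∈ T v, ((univ.filter (fun w => j ∈ T w)).card : ℝ) =
        (∑ j ∈ T v, pr T j) * Fintype.card V := by
      rw [Finset.sum_mul]
      exact Finset.sum_congr rfl fun j _ => (KFE_pr T j h.pos).symm
    rw [h2] at h1
    exact le_of_mul_le_mul_right h1 hN

end Pool.Agent.Work.MP_1ce445_k6
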