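import Pool.Agent.Work.MP_1ce445_k6.Interface

/-!
Block KLF of the table `k6_blocks` (MP_1ce445_co): the K4 leaf.
-/

namespace Pool.Agent.Work.MP_1ce445_k6

open Finset Pool.Agent.Work.MP_1ce445_co_56 Pool.Agent.Work.MP_1ce445_lin

theorem stmt_KLF (h1 : Stmt_KRL) (h2 : Stmt_KRF) (h3 : Stmt_KFE) (h4 : Stmt_KSU) (h5 : Stmt_KPR)
    (h6 : Stmt_KCA) (h7 : Stmt_KC3) (h8 : Stmt_KC4) : Stmt_KLF := by
  intro V _ k M T W c κ hS x hx
  have hκ := hS.kap
  have hs : 0 ≤ Real.sqrt κ := Real.sqrt_nonneg κ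
  by_cases hv : ∃ v, (Sx T x v).card ≤ 1
  · obtain ⟨v, hv⟩ := hv
    have a := h6 M T W c κ hS x hx v hv
    have b := h2 c hS.cl hS.cu
    linarith
  · have h2v : ∀ v, 2 ≤ (Sx T x v).card := by
      intro v
      by_contra h
      exact hv ⟨v, by omega⟩
    obtain ⟨f1, f2, f3⟩ := h3 M T W c κ hS
    obtain ⟨s1, s2⟩ := h4 M T W c κ hS x hx
    obtain ⟨p1, -⟩ := h5 M T W c κ hS x hx
    have hN : (0 : ℝ) < Fintype.card V := by exact_mod_cast hS.pos
    have hA : nA T x ≤ Fintype.card V := by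
      unfold nA
      exact (card_le_univ _)
    have hA' : (nA T x : ℝ) ≤ Fintype.card V := by exact_mod_cast hA
    have ha0 : 0 ≤ (nA T x : ℝ) / Fintype.card V := div_nonneg (Nat.cast_nonneg _) hN.le
    have ha1 : (nA T x : ℝ) / Fintype.card V ≤ 1 := by
      rw [div_le_one hN]; exact hA'
    have hr : 0 ≤ rh M T x := sum_nonneg fun j _ => (f2 j).1
    have hp : 0 ≤ p2 M T x := sum_nonneg fun j _ => sq_nonneg _
    have hsum : 0 ≤ ∑ i, (1 - pr T (x i)) := sum_nonneg fun i _ => by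
      have := (f2 (x i)).2
      linarith
    have key := h1 c κ ((nA T x : ℝ) / Fintype.card V) (rh M T x) (p2 M T x) hS.cl hS.cu hκ ha0 ha1
      hr hp (h7 M T W c κ hS x hx h2v) (h8 M T W c κ hS x hx h2v)
    have s3 := s2 h2v
    have s4 : (∑ i, (1 - pr T (x i))) / 4 ≤ (2 - (nA T x : ℝ) / Fintype.card V) / 4 :=
      div_le_div_of_nonneg_right s3 (by norm_num)
    have s5 := pow_le_pow_left₀ (div_nonneg hsum (by norm_num)) s4 4
    exact (p1.trans (mul_le_mul_of_nonneg_right s5 (Real.exp_pos _).le)).trans key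

end Pool.Agent.Work.MP_1ce445_k6
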