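import Pool.Agent.Work.MP_1ce445_k6.Interface
import Pool.Agent.Work.MP_1ce445_lin.INC
import Pool.Agent.Work.MP_1ce445_co_56.KeyIneq

set_option autoImplicit false

/-! # Block KPR: the product over `M` against the four points -/

namespace Pool.Agent.Work.MP_1ce445_k6

open Finset Pool.Agent.Work.MP_1ce445_co_56 Pool.Agent.Work.MP_1ce445_lin

theorem KPR_image {V : Type} [Fintype V] {k : ℕ} {M : Finset (Fin k)} {T : V → Finset (Fin k)}
    {W : V → V → Prop} {c κ : ℝ} (h : Sy M T W c κ) {x : Fin 4 → Fin k} (hx : Kp T x) :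
    univ.image x ⊆ M := by
  intro j hj
  rw [Finset.mem_image] at hj
  obtain ⟨i, _, rfl⟩ := hj
  obtain ⟨i', hi'⟩ : ∃ i' : Fin 4, i ≠ i' := by
    by_cases h0 : i = 0
    · exact ⟨1, by rw [h0]; decide⟩
    · exact ⟨0, h0⟩
  obtain ⟨v, hv⟩ := hx.pre i i' hi'
  apply h.sub v
  rw [hv]
  exact Finset.mem_insert_self _ _

theorem KPR_split {V : Type} [Fintype V] {k : ℕ} {M : Finset (Fin k)} {T : V → Finset (Fin k)}
    {W : V → V → Prop} {c κ : ℝ} (h : Sy M T W c κ) {x : Fin 4 → Fin k} (hx : Kp T x) :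
    ∏ j ∈ M, (1 - pr T j) =
      (∏ j ∈ M \ univ.image x, (1 - pr T j)) * ∏ i, (1 - pr T (x i)) := by
  rw [← Finset.prod_sdiff (KPR_image h hx), Finset.prod_image (fun a _ b _ hab => hx.inj hab)]

theorem KPR_amgm3 (a b c : ℝ) (ha : 0 ≤ a) (hb : 0 ≤ b) (hc : 0 ≤ c) :
    a * b * c ≤ ((a + b + c) / 3) ^ 3 := by
  have h := INC_amgm (Finset.univ : Finset (Fin 3)) ![a, b, c]
    (by intro j _; fin_cases j <;> simp [ha, hb, hc]) (by simp)
  simpa [Fin.sum_univ_three, Fin.prod_univ_three] using h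

theorem p_KPR_aux (hKFE : Stmt_KFE) : Stmt_KPR := by
  intro V _ k M T W c κ h x hx
  obtain ⟨_, hp, _⟩ := hKFE M T W c κ h
  have hq : ∀ j, 0 ≤ 1 - pr T j := fun j => by linarith [(hp j).2]
  rw [KPR_split h hx]
  have hin0 : 0 ≤ ∏ i, (1 - pr T (x i)) := Finset.prod_nonneg fun i _ => hq _
  have hout1 : ∏ j ∈ M \ univ.image x, (1 - pr T j) ≤ Real.exp (-(rh M T x + p2 M T x / 2)) := by
    have h1 : ∏ j ∈ M \ univ.image x, (1 - pr T j) ≤
        ∏ j ∈ M \ univ.image x, Real.exp (-(pr T j + pr T j ^ 2 / 2)) :=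
      Finset.prod_le_prod (fun j _ => hq j) (fun j _ => second_order (hp j).1 (hp j).2)
    rw [← Real.exp_sum] at h1
    have h2 : ∑ j ∈ M \ univ.image x, -(pr T j + pr T j ^ 2 / 2) =
        -(rh M T x + p2 M T x / 2) := by
      unfold rh p2
      rw [Finset.sum_neg_distrib, Finset.sum_add_distrib, Finset.sum_div]
    rw [h2] at h1
    exact h1
  have hout2 : ∏ j ∈ M \ univ.image x, (1 - pr T j) ≤ Real.exp (-(rh M T x)) := by
    refine hout1.trans (Real.exp_le_exp.2 ?_)
    have : 0 ≤ p2 M T x := Finset.sum_nonneg fun j _ => sq_nonneg _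
    linarith
  refine ⟨?_, ?_⟩
  · have h1 : ∏ i, (1 - pr T (x i)) ≤ ((∑ i, (1 - pr T (x i))) / 4) ^ 4 := by
      have := INC_amgm (Finset.univ : Finset (Fin 4)) (fun i => 1 - pr T (x i))
        (fun j _ => hq _) (by simp)
      simpa using this
    rw [mul_comm]
    exact mul_le_mul h1 hout1 (Finset.prod_nonneg fun j _ => hq j) (hin0.trans h1)
  · intro i
    have h1 : ∏ i', (1 - pr T (x i')) ≤
        (1 - pr T (x i)) * (((∑ i', (1 - pr T (x i'))) - (1 - pr T (x i))) / 3) ^ 3 := by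
      have e0 := hq (x 0)
      have e1 := hq (x 1)
      have e2 := hq (x 2)
      have e3 := hq (x 3)
      rw [Fin.prod_univ_four, Fin.sum_univ_four]
      fin_cases i
      · have := mul_le_mul_of_nonneg_left (KPR_amgm3 _ _ _ e1 e2 e3) e0
        refine le_trans (le_of_eq ?_) (this.trans (le_of_eq ?_))
        · ring
        · simp only [Fin.zero_eta]
          ring
      · have := mul_le_mul_of_nonneg_left (KPR_amgm3 _ _ _ e0 e2 e3) e1
        refine le_trans (le_of_eq ?_) (this.trans (le_of_eq ?_))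
        · ring
        · simp only [Fin.mk_one]
          ring
      · have := mul_le_mul_of_nonneg_left (KPR_amgm3 _ _ _ e0 e1 e3) e2
        refine le_trans (le_of_eq ?_) (this.trans (le_of_eq ?_))
        · ring
        · simp only [Fin.reduceFinMk]
          ring
      · have := mul_le_mul_of_nonneg_left (KPR_amgm3 _ _ _ e0 e1 e2) e3
        refine le_trans (le_of_eq ?_) (this.trans (le_of_eq ?_))
        · ring
        · simp only [Fin.reduceFinMk]
          ring
    rw [mul_comm]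
    exact mul_le_mul h1 hout2 (Finset.prod_nonneg fun j _ => hq j) (hin0.trans h1)

theorem stmt_KPR (h1 : Stmt_KFE) : Stmt_KPR := p_KPR_aux h1

end Pool.Agent.Work.MP_1ce445_k6
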