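import Pool.Agent.Work.MP_1ce445_k6.Interface

/-!
Block KRF of k6_blocks (MP_1ce445_co).
-/

namespace Pool.Agent.Work.MP_1ce445_k6

theorem stmt_KRF : Stmt_KRF := by
  intro c hc1 hc2
  have hs : Real.sqrt (c * (1 - 6 * c)) ≤ 21 / 20 - 6 * c := by
    rw [Real.sqrt_le_left (by linarith)]
    nlinarith [sq_nonneg (c - 17 / 105)]
  have h0 : 0 ≤ (1 + 6 * c) / 4 := by linarith
  have h1 : 19 / 20 * ((1 + 6 * c) / 4) ≤ (2 - Real.sqrt (c * (1 - 6 * c))) / 4 := by linarith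
  have h2 := pow_le_pow_left₀ (by positivity) h1 4
  have h3 : 0 ≤ ((1 + 6 * c) / 4) ^ 4 := by positivity
  calc 4 / 5 * ((1 + 6 * c) / 4) ^ 4 ≤ (19 / 20 * ((1 + 6 * c) / 4)) ^ 4 := by
        rw [mul_pow]
        nlinarith
    _ ≤ _ := h2

end Pool.Agent.Work.MP_1ce445_k6
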