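import Pool.Agent.Work.MP_1ce445_k6.Interface

/-!
Block KRG of the K4 LEAF (MP_1ce445_co): a real inequality.
-/

namespace Pool.Agent.Work.MP_1ce445_k6

open Finset Pool.Agent.Work.MP_1ce445_co_56 Pool.Agent.Work.MP_1ce445_lin

theorem KRG_le (x y : ℝ) (hy : 0 < y) : x ≤ y * Real.exp (x / y - 1) := by
  have h1 : x / y ≤ Real.exp (x / y - 1) := by
    have := Real.add_one_le_exp (x / y - 1)
    linarith
  have h2 : x = y * (x / y) := by
    field_simp
  calc x = y * (x / y) := h2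
    _ ≤ y * Real.exp (x / y - 1) := mul_le_mul_of_nonneg_left h1 hy.le

theorem KRG_exp : Real.exp (-(17 / 100)) ≤ 17 / 20 := by
  have h1 : (1 : ℝ) + 17 / 100 + (17 / 100) ^ 2 / 2 ≤ Real.exp (17 / 100) :=
    Real.quadratic_le_exp_of_nonneg (by norm_num)
  have h2 : (20 / 17 : ℝ) ≤ Real.exp (17 / 100) := by
    norm_num at h1
    linarith
  rw [Real.exp_neg]
  have h3 : (17 / 20 : ℝ) = (20 / 17)⁻¹ := by norm_num
  rw [h3]
  exact inv_anti₀ (by norm_num) h2

theorem stmt_KRG : Stmt_KRG := by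
  intro c a h1 h2 h3 h4
  set S : ℝ := 1 + 6 * c with hS
  have hS1 : 13 / 7 ≤ S := by rw [hS]; linarith
  have hS0 : 0 < S := by linarith
  have ha0 : 0 < 9 / 50 * S := by positivity
  have hb0 : 0 < 41 / 150 * S := by positivity
  set y : ℝ := (S - a) / 3 with hy
  have hy0 : 0 ≤ y := by
    rw [hy]
    apply div_nonneg _ (by norm_num)
    linarith
  have e1 := KRG_le a (9 / 50 * S) ha0
  have e2 := KRG_le y (41 / 150 * S) hb0
  have e3 : y ^ 3 ≤ (41 / 150 * S * Real.exp (y / (41 / 150 * S) - 1)) ^ 3 := pow_le_pow_left₀ hy0 e2 3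
  have e4 : a * y ^ 3 ≤ (9 / 50 * S * Real.exp (a / (9 / 50 * S) - 1)) *
      (41 / 150 * S * Real.exp (y / (41 / 150 * S) - 1)) ^ 3 :=
    mul_le_mul e1 e3 (by positivity) (by positivity)
  have e5 : a * y ^ 3 * Real.exp (-(a - c)) ≤ (9 / 50 * S * Real.exp (a / (9 / 50 * S) - 1)) *
      (41 / 150 * S * Real.exp (y / (41 / 150 * S) - 1)) ^ 3 * Real.exp (-(a - c)) :=
    mul_le_mul_of_nonneg_right e4 (Real.exp_pos _).le
  have e6 : (9 / 50 * S * Real.exp (a / (9 / 50 * S) - 1)) *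
      (41 / 150 * S * Real.exp (y / (41 / 150 * S) - 1)) ^ 3 * Real.exp (-(a - c)) =
      (9 / 50 * (41 / 150) ^ 3) * S ^ 4 *
        Real.exp ((a / (9 / 50 * S) - 1) + 3 * (y / (41 / 150 * S) - 1) + (-(a - c))) := by
    rw [Real.exp_add, Real.exp_add]
    have h5 : Real.exp (3 * (y / (41 / 150 * S) - 1)) = Real.exp (y / (41 / 150 * S) - 1) ^ 3 := by
      rw [← Real.exp_nat_mul]
      norm_num
    rw [h5]
    ring
  have e7 : (a / (9 / 50 * S) - 1) + 3 * (y / (41 / 150 * S) - 1) + (-(a - c)) ≤ -(17 / 100) := by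
    have h5 : a / (9 / 50 * S) = 50 / 9 * (a / S) := by
      field_simp
    have h6 : y / (41 / 150 * S) = 50 / 41 * (1 - a / S) := by
      rw [hy]
      field_simp
      ring
    rw [h5, h6]
    have h7 : a / S ≤ (a + 14 / 41 - 17 / 100 - c) * (369 / 700) := by
      rw [div_le_iff₀ hS0]
      have h8 : 0 ≤ (c - 1 / 7) * (1 / 6 - c) := mul_nonneg (by linarith) (by linarith)
      have v0 : 0 ≤ (14 / 41 - 17 / 100 - c) * S := mul_nonneg (by linarith) hS0.le
      have v1 : 0 ≤ (1 + 14 / 41 - 17 / 100 - c) * S - 700 / 369 := by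
        rw [hS]
        nlinarith
      have w0 : 0 ≤ (1 - a) * ((14 / 41 - 17 / 100 - c) * S) := mul_nonneg (by linarith) v0
      have w1 : 0 ≤ a * ((1 + 14 / 41 - 17 / 100 - c) * S - 700 / 369) := mul_nonneg h3 v1
      linarith
    linarith
  have e8 : Real.exp ((a / (9 / 50 * S) - 1) + 3 * (y / (41 / 150 * S) - 1) + (-(a - c))) ≤ 17 / 20 :=
    (Real.exp_le_exp.2 e7).trans KRG_exp
  have hS4 : 0 ≤ S ^ 4 := by positivity
  have e9 : (9 / 50 * (41 / 150) ^ 3) * S ^ 4 *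
        Real.exp ((a / (9 / 50 * S) - 1) + 3 * (y / (41 / 150 * S) - 1) + (-(a - c))) ≤
      (9 / 50 * (41 / 150) ^ 3) * S ^ 4 * (17 / 20) := mul_le_mul_of_nonneg_left e8 (by positivity)
  have e10 : (9 / 50 * (41 / 150) ^ 3) * S ^ 4 * (17 / 20) ≤ 4 / 5 * (S / 4) ^ 4 := by
    have h5 : 4 / 5 * (S / 4) ^ 4 = 4 / 5 / 256 * S ^ 4 := by ring
    rw [h5]
    have h6 : (9 / 50 * (41 / 150) ^ 3) * S ^ 4 * (17 / 20) = (9 / 50 * (41 / 150) ^ 3 * (17 / 20)) * S ^ 4 := by ring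
    rw [h6]
    exact mul_le_mul_of_nonneg_right (by norm_num) hS4
  linarith

end Pool.Agent.Work.MP_1ce445_k6
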