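import Pool.Agent.Work.MP_1ce445_k6.Interface

/-!
Block KSU of MP_1ce445_k6: bounds for the sum of `1 - p` over the four points.
-/

namespace Pool.Agent.Work.MP_1ce445_k6

open Finset Pool.Agent.Work.MP_1ce445_co_56 Pool.Agent.Work.MP_1ce445_lin

/-- `1` if the point `x i` is not in `T v`, otherwise `0` -/
noncomputable def KSU_z {V : Type} {k : ℕ} (T : V → Finset (Fin k)) (x : Fin 4 → Fin k)
    (v : V) (i : Fin 4) : ℝ := if x i ∈ T v then 0 else 1

theorem KSU_one {V : Type} [Fintype V] {k : ℕ} (T : V → Finset (Fin k)) (x : Fin 4 → Fin k)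
    (hN : 0 < Fintype.card V) (i : Fin 4) :
    (1 - pr T (x i)) * Fintype.card V = ∑ v, KSU_z T x v i := by
  have hN' : (Fintype.card V : ℝ) ≠ 0 := by
    have : (0 : ℝ) < Fintype.card V := by exact_mod_cast hN
    exact this.ne'
  unfold pr KSU_z
  rw [sub_mul, div_mul_cancel₀ _ hN', one_mul]
  have h1 : ((univ.filter (fun v => x i ∈ T v)).card : ℝ) =
      ∑ v, (if x i ∈ T v then (1 : ℝ) else 0) := by
    rw [Finset.card_filter]; push_cast; rfl
  have h2 : (Fintype.card V : ℝ) = ∑ _v : V, (1 : ℝ) := by simp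
  rw [h1, h2, ← Finset.sum_sub_distrib]
  apply Finset.sum_congr rfl
  intro v _
  split_ifs <;> norm_num

theorem KSU_tot {V : Type} [Fintype V] {k : ℕ} (T : V → Finset (Fin k)) (x : Fin 4 → Fin k)
    (hN : 0 < Fintype.card V) :
    (∑ i, (1 - pr T (x i))) * Fintype.card V = ∑ v, ∑ i, KSU_z T x v i := by
  rw [Finset.sum_mul, Finset.sum_comm]
  exact Finset.sum_congr rfl (fun i _ => KSU_one T x hN i)

theorem KSU_pair {V : Type} [Fintype V] {k : ℕ} (T : V → Finset (Fin k)) (x : Fin 4 → Fin k)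
    (c : ℝ) (h1 : ∀ v, ((univ.filter (fun w => T v ∩ T w = ∅)).card : ℝ) ≤ c * Fintype.card V)
    (hx : Kp T x) (i j : Fin 4) (hij : i ≠ j) :
    ∑ v, KSU_z T x v i * KSU_z T x v j ≤ c * Fintype.card V := by
  obtain ⟨v0, h0⟩ := hx.pre i j hij
  refine le_trans (le_of_eq ?_) (h1 v0)
  rw [Finset.card_filter]
  push_cast
  apply Finset.sum_congr rfl
  intro v _
  have h2 : (T v0 ∩ T v = ∅) ↔ (x i ∉ T v ∧ x j ∉ T v) := by
    rw [h0, ← Finset.disjoint_iff_inter_eq_empty]
    simp [Finset.disjoint_insert_left]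
  unfold KSU_z
  by_cases hi : x i ∈ T v <;> by_cases hj : x j ∈ T v <;> simp [h2, hi, hj]

theorem KSU_four (a b c d : ℝ) (ha : a = 0 ∨ a = 1) (hb : b = 0 ∨ b = 1) (hc : c = 0 ∨ c = 1)
    (hd : d = 0 ∨ d = 1) :
    a + b + c + d ≤ 1 + (a * b + a * c + a * d + b * c + b * d + c * d) := by
  rcases ha with rfl | rfl <;> rcases hb with rfl | rfl <;> rcases hc with rfl | rfl <;>
    rcases hd with rfl | rfl <;> norm_num

theorem KSU_z01 {V : Type} {k : ℕ} (T : V → Finset (Fin k)) (x : Fin 4 → Fin k)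
    (v : V) (i : Fin 4) : KSU_z T x v i = 0 ∨ KSU_z T x v i = 1 := by
  unfold KSU_z
  split_ifs
  · exact Or.inl rfl
  · exact Or.inr rfl

theorem KSU_sx {V : Type} {k : ℕ} (T : V → Finset (Fin k)) (x : Fin 4 → Fin k) (v : V) :
    ∑ i, KSU_z T x v i = 4 - ((Sx T x v).card : ℝ) := by
  unfold Sx KSU_z
  rw [Finset.card_filter]
  push_cast
  have h2 : (4 : ℝ) = ∑ _i : Fin 4, (1 : ℝ) := by simp
  rw [h2, ← Finset.sum_sub_distrib]
  apply Finset.sum_congr rfl
  intro i _
  split_ifs <;> norm_num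

theorem stmt_KSU (hKFE : Stmt_KFE) : Stmt_KSU := by
  intro V _ k M T W c κ hS x hx
  obtain ⟨h1, -, -⟩ := hKFE M T W c κ hS
  have hN : (0 : ℝ) < Fintype.card V := by exact_mod_cast hS.pos
  have htot := KSU_tot T x hS.pos
  refine ⟨?_, ?_⟩
  · have hle : (∑ i, (1 - pr T (x i))) * Fintype.card V ≤ (1 + 6 * c) * Fintype.card V := by
      rw [htot]
      have hb : ∑ v, ∑ i, KSU_z T x v i ≤
          ∑ v : V, ((1 : ℝ) + (KSU_z T x v 0 * KSU_z T x v 1 + KSU_z T x v 0 * KSU_z T x v 2 +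
            KSU_z T x v 0 * KSU_z T x v 3 + KSU_z T x v 1 * KSU_z T x v 2 +
            KSU_z T x v 1 * KSU_z T x v 3 + KSU_z T x v 2 * KSU_z T x v 3)) := by
        apply Finset.sum_le_sum
        intro v _
        rw [Fin.sum_univ_four]
        exact KSU_four _ _ _ _ (KSU_z01 T x v 0) (KSU_z01 T x v 1) (KSU_z01 T x v 2)
          (KSU_z01 T x v 3)
      have p01 := KSU_pair T x c h1 hx 0 1 (by decide)
      have p02 := KSU_pair T x c h1 hx 0 2 (by decide)
      have p03 := KSU_pair T x c h1 hx 0 3 (by decide)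
      have p12 := KSU_pair T x c h1 hx 1 2 (by decide)
      have p13 := KSU_pair T x c h1 hx 1 3 (by decide)
      have p23 := KSU_pair T x c h1 hx 2 3 (by decide)
      refine le_trans hb ?_
      simp only [Finset.sum_add_distrib]
      have h3 : ∑ _v : V, (1 : ℝ) = Fintype.card V := by simp
      rw [h3]
      linarith
    exact le_of_mul_le_mul_right hle hN
  · intro h2
    have hnA : ((nA T x : ℕ) : ℝ) =
        ∑ v, (if 3 ≤ (Sx T x v).card then (1 : ℝ) else 0) := by
      unfold nA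
      rw [Finset.card_filter]; push_cast; rfl
    have hle : (∑ i, (1 - pr T (x i))) * Fintype.card V ≤ 2 * Fintype.card V - nA T x := by
      rw [htot, hnA]
      have h3 : (2 : ℝ) * Fintype.card V = ∑ _v : V, (2 : ℝ) := by simp [mul_comm]
      rw [h3, ← Finset.sum_sub_distrib]
      apply Finset.sum_le_sum
      intro v _
      rw [KSU_sx]
      split_ifs with h4
      · have : (3 : ℝ) ≤ ((Sx T x v).card : ℝ) := by exact_mod_cast h4
        linarith
      · have : (2 : ℝ) ≤ ((Sx T x v).card : ℝ) := by exact_mod_cast h2 v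
        linarith
    have h5 : (2 - (nA T x : ℝ) / Fintype.card V) * Fintype.card V =
        2 * Fintype.card V - nA T x := by
      rw [sub_mul, div_mul_cancel₀ _ hN.ne']
    rw [← h5] at hle
    exact le_of_mul_le_mul_right hle hN

end Pool.Agent.Work.MP_1ce445_k6
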