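import Pool.Agent.Work.MP_1ce445_k6.KRL
import Pool.Agent.Work.MP_1ce445_k6.KRG
import Pool.Agent.Work.MP_1ce445_k6.KRF
import Pool.Agent.Work.MP_1ce445_k6.KFE
import Pool.Agent.Work.MP_1ce445_k6.KSU
import Pool.Agent.Work.MP_1ce445_k6.KPR
import Pool.Agent.Work.MP_1ce445_k6.KCA
import Pool.Agent.Work.MP_1ce445_k6.KC1
import Pool.Agent.Work.MP_1ce445_k6.KC2
import Pool.Agent.Work.MP_1ce445_k6.KC3
import Pool.Agent.Work.MP_1ce445_k6.KC4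
import Pool.Agent.Work.MP_1ce445_k6.KLF

/-!
The K4 leaf on `1/7 ≤ c ≤ 1/6`: all blocks together.
-/

namespace Pool.Agent.Work.MP_1ce445_k6

theorem h_KFE : Stmt_KFE := stmt_KFE

theorem h_KSU : Stmt_KSU := stmt_KSU h_KFE

theorem h_KPR : Stmt_KPR := stmt_KPR h_KFE

theorem h_KCA : Stmt_KCA := stmt_KCA stmt_KRG h_KFE h_KSU h_KPR

theorem h_KC1 : Stmt_KC1 := stmt_KC1 h_KFE

theorem h_KC2 : Stmt_KC2 := stmt_KC2 h_KC1

theorem h_KC3 : Stmt_KC3 := stmt_KC3 h_KC1 h_KC2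

theorem h_KC4 : Stmt_KC4 := stmt_KC4 h_KC1 h_KC2

/-- The K4 leaf. -/
theorem h_KLF : Stmt_KLF :=
  stmt_KLF stmt_KRL stmt_KRF h_KFE h_KSU h_KPR h_KCA h_KC3 h_KC4

end Pool.Agent.Work.MP_1ce445_k6
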