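import Pool.Agent.Work.MP_1ce445_lin.Interface2

/-!
MP_1ce445_co, range `1/7 ≤ c ≤ 1/6`: the K4 LEAF. If all six pairs of four points are present then the product is at most
`((2 - √(c (1 - 6 c)))/4)^4 + √κ` (sharp: type system of the block PS in MP_1ce445_low).
Statements of the blocks KRL KRG KRF KFE KSU KPR KCA KC1 KC2 KC3 KC4 KLF with complete proofs in the docstrings.

One file `Pool/Agent/Work/MP_1ce445_k6/<ID>.lean` per block, `import Pool.Agent.Work.MP_1ce445_k6.Interface`,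
same `open` lines, theorem `stmt_<ID>` with exactly the statements of the column `uses` as hypotheses, in this
order; auxiliary lemmas with the name of the block in front (`KC1_aux`). Model files: `MP_1ce445_lin/BAS.lean`, `ATW.lean`.
-/

namespace Pool.Agent.Work.MP_1ce445_k6

open Finset Pool.Agent.Work.MP_1ce445_co_56 Pool.Agent.Work.MP_1ce445_lin

/-- the hypotheses on the set system: all degrees of `W` are between `(1 - c) |V|` and `(1 - c + κ) |V|` -/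
structure Sy {V : Type} [Fintype V] {k : ℕ} (M : Finset (Fin k)) (T : V → Finset (Fin k))
    (W : V → V → Prop) (c κ : ℝ) : Prop where
  pos : 0 < Fintype.card V
  sub : ∀ v, T v ⊆ M
  symm : ∀ v w, W v w → W w v
  meet : ∀ v w, W v w → (T v ∩ T w).Nonempty
  cl : 1 / 7 ≤ c
  cu : c ≤ 1 / 6
  kap : 0 ≤ κ
  low : ∀ v, (1 - c) * Fintype.card V ≤ dW W v
  upp : ∀ v, dW W v ≤ (1 - c + κ) * Fintype.card V

/-- four points, all six pairs are present -/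
structure Kp {V : Type} {k : ℕ} (T : V → Finset (Fin k)) (x : Fin 4 → Fin k) : Prop where
  inj : Function.Injective x
  pre : ∀ i j, i ≠ j → ∃ v, T v = {x i, x j}

/-- the indices of the points in `T v` -/
def Sx {V : Type} {k : ℕ} (T : V → Finset (Fin k)) (x : Fin 4 → Fin k) (v : V) : Finset (Fin 4) :=
  univ.filter (fun i => x i ∈ T v)

/-- number of the `v` with `Sx T x v = s` -/
def ns {V : Type} [Fintype V] {k : ℕ} (T : V → Finset (Fin k)) (x : Fin 4 → Fin k)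
    (s : Finset (Fin 4)) : ℕ := (univ.filter (fun v => Sx T x v = s)).card

/-- number of the `v` such that `T v` contains at least three of the points -/
def nA {V : Type} [Fintype V] {k : ℕ} (T : V → Finset (Fin k)) (x : Fin 4 → Fin k) : ℕ :=
  (univ.filter (fun v => 3 ≤ (Sx T x v).card)).card

/-- sum of the frequencies outside the four points -/
noncomputable def rh {V : Type} [Fintype V] {k : ℕ} (M : Finset (Fin k)) (T : V → Finset (Fin k))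
    (x : Fin 4 → Fin k) : ℝ := ∑ j ∈ M \ univ.image x, pr T j

/-- sum of the squares of the frequencies outside the four points -/
noncomputable def p2 {V : Type} [Fintype V] {k : ℕ} (M : Finset (Fin k)) (T : V → Finset (Fin k))
    (x : Fin 4 → Fin k) : ℝ := ∑ j ∈ M \ univ.image x, pr T j ^ 2

/-! ### Real inequalities -/

/-- KRL (100 lines). `M0 = √(c (1 - 6c)) ≤ 1/7` since `(c - 1/7)(6c - 1/7) ≥ 0`. Let `Q = max 0 (c (1 - 6c) - κ)`, `m = √Q ≤ M0`, `M0 ≤ m + √κ`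
(square). Claim: left side `≤ ((2 - m)/4)^4`; then with `u = (2 - m)/4 ≤ 1/2`, `v = (2 - M0)/4`, `0 ≤ u - v ≤ √κ/4`:
`u^4 - v^4 ≤ 4 (u - v) u^3 ≤ √κ`. Claim, `a ≥ m`: `exp ≤ 1`, `0 ≤ 2 - a ≤ 2 - m`. `a < m`: `Q = c (1 - 6c) - κ > 0`, so
`m² - a² ≤ ρ a` and `m² - a² ≤ P / 2`; so `a > 0`, and `ρ + P/2 ≥ (m² - a²)(1 + 1/a) ≥ 4 (m - a)/(2 - m)`, because
`(m + a)(1 + a)(2 - m) ≥ 4 a` (`(m + a)(2 - m) ≥ 2a (2 - a)` as `a ≤ m ≤ 1/7`: difference `(m - a)(2 - m - 2a) ≥ 0`; and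
`2a (2 - a)(1 + a) = 2a (2 + a - a²) ≥ 4a`). And `(2 - a)/(2 - m) = 1 + (m - a)/(2 - m) ≤ exp ((m - a)/(2 - m))`. -/
def Stmt_KRL : Prop :=
  ∀ c κ a ρ P : ℝ, 1 / 7 ≤ c → c ≤ 1 / 6 → 0 ≤ κ → 0 ≤ a → a ≤ 1 → 0 ≤ ρ → 0 ≤ P →
    c * (1 - 6 * c) ≤ a ^ 2 + ρ * a + κ → c * (1 - 6 * c) ≤ a ^ 2 + P / 2 + κ →
    ((2 - a) / 4) ^ 4 * Real.exp (-(ρ + P / 2)) ≤
      ((2 - Real.sqrt (c * (1 - 6 * c))) / 4) ^ 4 + Real.sqrt κ

/-- KRG (80 lines). Let `S = 1 + 6c ∈ [13/7, 2]`, `a0 = 9/50 S`, `b0 = 41/150 S` (`= (S - a0)/3`). `y ≤ exp (y - 1)` gives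
`a ≤ a0 exp (a/a0 - 1)` and `(S - a)/3 ≤ b0 exp ((S - a)/(3 b0) - 1)`. `a0 b0³ = S⁴ (9/50)(41/150)³ ≤ (47/50)·1.0022 (S/4)⁴` (the ratio
is `0.941019`). The sum of the exponents is `a/a0 - 1 + (S - a)/b0 - 3 - a + c = a ((50/9 - 150/41)/S - 1) + (150/41 - 4) + c`;
`50/9 - 150/41 = 1.89702`. For `c ≤ 3/20` it is at most `0.0215 + c - 0.3414 ≤ -17/100` (`a ≤ 1`, `S ≥ 13/7`); for `c ≥ 3/20`,
`S ≥ 1.9`, the coefficient of `a` is negative: `≤ c - 0.3414 ≤ -17/100`. `0.94102 exp (-0.17) ≤ 0.794 ≤ 4/5`. -/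
def Stmt_KRG : Prop :=
  ∀ c a : ℝ, 1 / 7 ≤ c → c ≤ 1 / 6 → 0 ≤ a → a ≤ 1 →
    a * ((1 + 6 * c - a) / 3) ^ 3 * Real.exp (-(a - c)) ≤ 4 / 5 * ((1 + 6 * c) / 4) ^ 4

/-- KRF (40 lines). `M0 = √(c (1 - 6c)) ≤ 1 - 6c + 1/20`: with `m = 1 - 6c`, `c = (1 - m)/6`:
`m (1 - m)/6 ≤ (m + 1/20)²`. So `2 - M0 ≥ 1 + 6c - 1/20 ≥ 19/20 (1 + 6c)` (`1 + 6c ≥ 13/7 ≥ 1`), and `(19/20)^4 ≥ 4/5`. -/
def Stmt_KRF : Prop :=
  ∀ c : ℝ, 1 / 7 ≤ c → c ≤ 1 / 6 →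
    4 / 5 * ((1 + 6 * c) / 4) ^ 4 ≤ ((2 - Real.sqrt (c * (1 - 6 * c))) / 4) ^ 4

/-! ### The set systems -/

/-- KFE (80 lines; model `MP_1ce445_lin/BAS.lean`). (1) `T v ∩ T w = ∅` implies not `W v w` (`meet`), so at most
`N - dW W v ≤ c N` such `w`. (2) `0 ≤ p_j ≤ 1`. (3) `(1 - c) N ≤ dW W v ≤ #{w : T v ∩ T w ≠ ∅} ≤ ∑_{j ∈ T v} p_j N`. -/
def Stmt_KFE : Prop :=
  ∀ {V : Type} [Fintype V] {k : ℕ} (M : Finset (Fin k)) (T : V → Finset (Fin k))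
    (W : V → V → Prop) (c κ : ℝ), Sy M T W c κ →
    (∀ v, ((univ.filter (fun w => T v ∩ T w = ∅)).card : ℝ) ≤ c * Fintype.card V) ∧
    (∀ j, 0 ≤ pr T j ∧ pr T j ≤ 1) ∧ ∀ v, 1 - c ≤ ∑ j ∈ T v, pr T j

/-- KSU (120 lines; uses KFE). `N ∑_i (1 - p_(x i)) = ∑_v (4 - |Sx v|)` (double counting). (1) `4 - s ≤ 1 + C(4 - s, 2)` for
`s = 0, .., 4`, and `∑_v C(4 - |Sx v|, 2) = ∑ over the six pairs {i, j} of #{v : x i ∉ T v, x j ∉ T v} ≤ 6 c N` (KFE (1) for the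
`v0` with `T v0 = {x i, x j}`). Simplest way: for the indicators `a, b, c, d ∈ {0, 1}` (`1` if the point is not in `T v`)
`a + b + c + d ≤ 1 + ab + ac + ad + bc + bd + cd`. (2) `4 - s ≤ 2 - (1 if s ≥ 3 else 0)` for `s ≥ 2`. -/
def Stmt_KSU : Prop :=
  ∀ {V : Type} [Fintype V] {k : ℕ} (M : Finset (Fin k)) (T : V → Finset (Fin k))
    (W : V → V → Prop) (c κ : ℝ), Sy M T W c κ → ∀ x : Fin 4 → Fin k, Kp T x →
    ∑ i, (1 - pr T (x i)) ≤ 1 + 6 * c ∧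
    ((∀ v, 2 ≤ (Sx T x v).card) →
      ∑ i, (1 - pr T (x i)) ≤ 2 - (nA T x : ℝ) / Fintype.card V)

/-- KPR (100 lines; uses KFE). `univ.image x ⊆ M` (the points are in some `T v ⊆ M`), so
`∏_M = ∏_i (1 - p_(x i)) · ∏_(M \ image)`. Outside: `1 - p ≤ exp (-p - p²/2)` for `0 ≤ p ≤ 1` (`log (1 - p) ≤ -(p + p²/2)`; or
TAN.lean in the same style), and also `1 - p ≤ exp (-p)`. Inside: AM-GM for four numbers, for the second bound AM-GM for the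
three numbers with index `≠ i` (`Real.inner_le_nnorm_mul_nnorm` is not needed: `inner_le...`; use
`Real.geom_mean_le_arith_mean4_weighted` or polynomial inequalities by `nlinarith`). -/
def Stmt_KPR : Prop :=
  ∀ {V : Type} [Fintype V] {k : ℕ} (M : Finset (Fin k)) (T : V → Finset (Fin k))
    (W : V → V → Prop) (c κ : ℝ), Sy M T W c κ → ∀ x : Fin 4 → Fin k, Kp T x →
    ∏ j ∈ M, (1 - pr T j) ≤
      ((∑ i, (1 - pr T (x i))) / 4) ^ 4 * Real.exp (-(rh M T x + p2 M T x / 2)) ∧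
    ∀ i, ∏ j ∈ M, (1 - pr T j) ≤
      (1 - pr T (x i)) * (((∑ i', (1 - pr T (x i'))) - (1 - pr T (x i))) / 3) ^ 3 *
        Real.exp (-(rh M T x))

/-- KCA (100 lines; uses KRG KFE KSU KPR). `Sx v = ∅`: `T v ⊆ M \ image`, so `rh ≥ 1 - c ≥ 5/6` (KFE (3), the terms are `≥ 0`), and
KPR (first bound, `p2 ≥ 0`), KSU (1), `exp (-5/6) ≤ 4/5`. `Sx v = {i}`: `a = 1 - p_(x i)`; `T v \ {x i} ⊆ M \ image`, so
`rh ≥ 1 - c - p_(x i) = a - c`; KPR (second bound) and KSU (1), KRG. -/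
def Stmt_KCA : Prop :=
  ∀ {V : Type} [Fintype V] {k : ℕ} (M : Finset (Fin k)) (T : V → Finset (Fin k))
    (W : V → V → Prop) (c κ : ℝ), Sy M T W c κ → ∀ x : Fin 4 → Fin k, Kp T x →
    ∀ v, (Sx T x v).card ≤ 1 → ∏ j ∈ M, (1 - pr T j) ≤ 4 / 5 * ((1 + 6 * c) / 4) ^ 4

/-- KC1 (120 lines; uses KFE). All `T v` contain at least two points. (1) `s = {i, j}`, `sᶜ = {i', j'}`: some `T v0` is
`{x i', x j'}`; `Sx v = s` implies `T v0 ∩ T v = ∅`; KFE (1). (2) Every `v` with `|Sx v| = 2` has `Sx v = s` for exactly one of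
the six `s`, so the sum is `∑_s ns s · ns sᶜ` (`s` over the six 2-sets of `Fin 4`); `(c N - ns s)(c N - ns sᶜ) ≥ 0` gives
`ns s · ns sᶜ ≥ c N (ns s + ns sᶜ) - c² N²`; sum over the six: `2 c N (N - nA) - 6 c² N²`, as `∑_s ns s = N - nA`. -/
def Stmt_KC1 : Prop :=
  ∀ {V : Type} [Fintype V] {k : ℕ} (M : Finset (Fin k)) (T : V → Finset (Fin k))
    (W : V → V → Prop) (c κ : ℝ), Sy M T W c κ → ∀ x : Fin 4 → Fin k, Kp T x →
    (∀ v, 2 ≤ (Sx T x v).card) →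
    (∀ s : Finset (Fin 4), s.card = 2 → (ns T x s : ℝ) ≤ c * Fintype.card V) ∧
    2 * c * Fintype.card V * (Fintype.card V - nA T x) - 6 * c ^ 2 * (Fintype.card V : ℝ) ^ 2 ≤
      ∑ v ∈ univ.filter (fun v => (Sx T x v).card = 2), (ns T x (Sx T x v)ᶜ : ℝ)

open Classical in
/-- KC2 (120 lines; uses KC1). Let `A = {v : 3 ≤ |Sx v|}`, `B` its complement (`|Sx v| = 2`), `N = |V|`. `Y` = number of the
pairs `(v, w)`, `v ∈ A`, `w ∈ B`, not `W v w`. Each `v ∈ A` has `N - dW W v ≥ (c - κ) N` non-neighbours, at most `nA` of them in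
`A`: `Y ≥ nA ((c - κ) N - nA)`. By the hypothesis (and symmetry of `W`) `Y ≤ ∑_{w ∈ B} (c N - ns (Sx w)ᶜ + g w)`. With KC1 (2):
`nA ((c - κ) N - nA) ≤ c N (N - nA) - 2 c N (N - nA) + 6 c² N² + ∑ g`, that is the claim. -/
def Stmt_KC2 : Prop :=
  ∀ {V : Type} [Fintype V] {k : ℕ} (M : Finset (Fin k)) (T : V → Finset (Fin k))
    (W : V → V → Prop) (c κ : ℝ), Sy M T W c κ → ∀ x : Fin 4 → Fin k, Kp T x →
    (∀ v, 2 ≤ (Sx T x v).card) → ∀ g : V → ℝ,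
    (∀ w, (Sx T x w).card = 2 →
      ((univ.filter (fun v => 3 ≤ (Sx T x v).card ∧ ¬ W w v)).card : ℝ) ≤
        c * Fintype.card V - ns T x (Sx T x w)ᶜ + g w) →
    c * (1 - 6 * c) * (Fintype.card V : ℝ) ^ 2 ≤
      (nA T x : ℝ) ^ 2 + κ * nA T x * Fintype.card V +
        ∑ w ∈ univ.filter (fun w => (Sx T x w).card = 2), g w

/-- KC3 (120 lines; uses KC1 KC2). `g w = nA` if `T w` is not contained in `univ.image x`, otherwise `0`. Hypothesis of KC2: the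
non-neighbours of `w` are at most `c N`. If `T w ⊆ image x`, `|Sx w| = 2`, then `Sx v = (Sx w)ᶜ` implies `T w ∩ T v = ∅`, so not
`W w v`, and such `v` are not in `A`: at most `c N - ns (Sx w)ᶜ` non-neighbours in `A`. Otherwise there are at most `nA`, and
`ns ≤ c N` (KC1 (1)). `∑ g ≤ nA · #{w : T w ⊄ image x} ≤ nA · N · rh` (such a `T w` contains some `j ∈ M \ image`). Divide by `N²`,
`κ nA N ≤ κ N²`. -/
def Stmt_KC3 : Prop :=
  ∀ {V : Type} [Fintype V] {k : ℕ} (M : Finset (Fin k)) (T : V → Finset (Fin k))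
    (W : V → V → Prop) (c κ : ℝ), Sy M T W c κ → ∀ x : Fin 4 → Fin k, Kp T x →
    (∀ v, 2 ≤ (Sx T x v).card) →
    c * (1 - 6 * c) ≤ ((nA T x : ℝ) / Fintype.card V) ^ 2 +
      rh M T x * ((nA T x : ℝ) / Fintype.card V) + κ

/-- KC4 (180 lines; uses KC1 KC2). `g w = #{v : Sx v = (Sx w)ᶜ, T w ∩ T v ≠ ∅}`. Hypothesis of KC2: the non-neighbours of `w` (at
most `c N`) contain the `v` with `Sx v = (Sx w)ᶜ`, `T w ∩ T v = ∅`: exactly `ns (Sx w)ᶜ - g w`, not in `A`. Sum of `g`: if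
`Sx v = (Sx w)ᶜ` and `T w ∩ T v ≠ ∅` then they have a common `j ∈ M \ image x`. For fixed `j` let `n_s` = number of the `v` with
`j ∈ T v`, `Sx v = s`: the pairs `(w, v)` are at most `∑_s n_s n_(sᶜ)` (six 2-sets) `= 2 ∑ over the three opposite pairs
≤ 2 ∑ ((n_s + n_(sᶜ))/2)² ≤ (∑_s n_s)²/2 ≤ (p_j N)²/2`. So `∑ g ≤ N² p2/2`. -/
def Stmt_KC4 : Prop :=
  ∀ {V : Type} [Fintype V] {k : ℕ} (M : Finset (Fin k)) (T : V → Finset (Fin k))
    (W : V → V → Prop) (c κ : ℝ), Sy M T W c κ → ∀ x : Fin 4 → Fin k, Kp T x →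
    (∀ v, 2 ≤ (Sx T x v).card) →
    c * (1 - 6 * c) ≤ ((nA T x : ℝ) / Fintype.card V) ^ 2 + p2 M T x / 2 + κ

/-- KLF (60 lines; uses KRL KRF KFE KSU KPR KCA KC3 KC4), the K4 leaf. Some `|Sx v| ≤ 1`: KCA and KRF. Otherwise KPR (first
bound), KSU (2) (the sum is `≥ 0`), KC3, KC4 and KRL with `a = nA/N ∈ [0, 1]`, `ρ = rh`, `P = p2`. -/
def Stmt_KLF : Prop :=
  ∀ {V : Type} [Fintype V] {k : ℕ} (M : Finset (Fin k)) (T : V → Finset (Fin k))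
    (W : V → V → Prop) (c κ : ℝ), Sy M T W c κ → ∀ x : Fin 4 → Fin k, Kp T x →
    ∏ j ∈ M, (1 - pr T j) ≤
      ((2 - Real.sqrt (c * (1 - 6 * c))) / 4) ^ 4 + Real.sqrt κ

end Pool.Agent.Work.MP_1ce445_k6
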