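import Pool.Agent.Work.MP_1ce445_k6.Interface

/-! Block KC4. -/

set_option autoImplicit false

namespace Pool.Agent.Work.MP_1ce445_k6

open Finset Pool.Agent.Work.MP_1ce445_co_56 Pool.Agent.Work.MP_1ce445_lin

theorem KC4_six (f : Finset (Fin 4) → ℝ) (hf : ∀ s, 0 ≤ f s) :
    ∑ s ∈ univ.filter (fun s : Finset (Fin 4) => s.card = 2), f s * f sᶜ ≤
      (∑ s ∈ univ.filter (fun s : Finset (Fin 4) => s.card = 2), f s) ^ 2 / 2 := by
  have h : univ.filter (fun s : Finset (Fin 4) => s.card = 2) =
      {{0, 1}, {2, 3}, {0, 2}, {1, 3}, {0, 3}, {1, 2}} := by decide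
  have c1 : ({0, 1} : Finset (Fin 4))ᶜ = {2, 3} := by decide
  have c2 : ({2, 3} : Finset (Fin 4))ᶜ = {0, 1} := by decide
  have c3 : ({0, 2} : Finset (Fin 4))ᶜ = {1, 3} := by decide
  have c4 : ({1, 3} : Finset (Fin 4))ᶜ = {0, 2} := by decide
  have c5 : ({0, 3} : Finset (Fin 4))ᶜ = {1, 2} := by decide
  have c6 : ({1, 2} : Finset (Fin 4))ᶜ = {0, 3} := by decide
  have e : ∀ F : Finset (Fin 4) → ℝ,
      ∑ s ∈ univ.filter (fun s : Finset (Fin 4) => s.card = 2), F s =
        F {0, 1} + (F {2, 3} + (F {0, 2} + (F {1, 3} + (F {0, 3} + F {1, 2})))) := by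
    intro F
    rw [h, Finset.sum_insert (by decide), Finset.sum_insert (by decide),
      Finset.sum_insert (by decide), Finset.sum_insert (by decide),
      Finset.sum_insert (by decide), Finset.sum_singleton]
  rw [e, e, c1, c2, c3, c4, c5, c6]
  have h1 := hf {0, 1}
  have h2 := hf {2, 3}
  have h3 := hf {0, 2}
  have h4 := hf {1, 3}
  have h5 := hf {0, 3}
  have h6 := hf {1, 2}
  generalize f {0, 1} = a at *
  generalize f {2, 3} = a' at *
  generalize f {0, 2} = b at *
  generalize f {1, 3} = b' at *
  generalize f {0, 3} = d at *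
  generalize f {1, 2} = d' at *
  nlinarith [sq_nonneg (a - a'), sq_nonneg (b - b'), sq_nonneg (d - d'),
    mul_nonneg (add_nonneg h1 h2) (add_nonneg h3 h4), mul_nonneg (add_nonneg h1 h2) (add_nonneg h5 h6),
    mul_nonneg (add_nonneg h3 h4) (add_nonneg h5 h6)]

open Classical in
theorem stmt_KC4 (_h1 : Stmt_KC1) (h2 : Stmt_KC2) : Stmt_KC4 := by
  intro V _ k M T W c κ hS x hK hx
  have hN : (0 : ℝ) < Fintype.card V := by exact_mod_cast hS.pos
  -- the function g
  set g : V → ℝ := fun w =>
    ((univ.filter (fun v => Sx T x v = (Sx T x w)ᶜ ∧ (T w ∩ T v).Nonempty)).card : ℝ) with hg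
  have hKC2 := h2 M T W c κ hS x hK hx g ?_
  · -- sum of g
    have hsum : ∑ w ∈ univ.filter (fun w => (Sx T x w).card = 2), g w ≤
        (Fintype.card V : ℝ) ^ 2 * (p2 M T x / 2) := by
      set F : Fin k → Finset (Fin 4) → ℝ := fun j s =>
        ((univ.filter (fun v => j ∈ T v ∧ Sx T x v = s)).card : ℝ) with hF
      have hFnn : ∀ j s, 0 ≤ F j s := fun j s => by rw [hF]; positivity
      have hgle : ∀ w, g w ≤ ∑ j ∈ M \ univ.image x,
          if j ∈ T w then F j (Sx T x w)ᶜ else 0 := by
        intro w
        have hsub : univ.filter (fun v => Sx T x v = (Sx T x w)ᶜ ∧ (T w ∩ T v).Nonempty) ⊆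
            (M \ univ.image x).biUnion (fun j => if j ∈ T w then
              univ.filter (fun v => j ∈ T v ∧ Sx T x v = (Sx T x w)ᶜ) else ∅) := by
          intro v hv
          rw [Finset.mem_filter] at hv
          obtain ⟨-, hv1, j, hj⟩ := hv
          rw [Finset.mem_inter] at hj
          rw [Finset.mem_biUnion]
          refine ⟨j, ?_, ?_⟩
          · rw [Finset.mem_sdiff]
            refine ⟨hS.sub w hj.1, ?_⟩
            intro him
            rw [Finset.mem_image] at him
            obtain ⟨i, -, rfl⟩ := him
            have hi1 : i ∈ Sx T x w := by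
              rw [Sx, Finset.mem_filter]
              exact ⟨Finset.mem_univ _, hj.1⟩
            have hi2 : i ∈ Sx T x v := by
              rw [Sx, Finset.mem_filter]
              exact ⟨Finset.mem_univ _, hj.2⟩
            rw [hv1, Finset.mem_compl] at hi2
            exact hi2 hi1
          · rw [if_pos hj.1, Finset.mem_filter]
            exact ⟨Finset.mem_univ _, hj.2, hv1⟩
        have hc := (Finset.card_le_card hsub).trans Finset.card_biUnion_le
        have hc' : g w ≤ ((∑ j ∈ M \ univ.image x, (if j ∈ T w then
              univ.filter (fun v => j ∈ T v ∧ Sx T x v = (Sx T x w)ᶜ) else ∅).card : ℕ) : ℝ) := by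
          simp only [hg]
          exact_mod_cast hc
        refine hc'.trans (le_of_eq ?_)
        push_cast
        apply Finset.sum_congr rfl
        intro j _
        split_ifs
        · rfl
        · simp
      have hfix : ∀ j, ∑ w ∈ univ.filter (fun w => (Sx T x w).card = 2),
          (if j ∈ T w then F j (Sx T x w)ᶜ else 0) ≤ (Fintype.card V * pr T j) ^ 2 / 2 := by
        intro j
        have e1 : ∑ w ∈ univ.filter (fun w => (Sx T x w).card = 2),
            (if j ∈ T w then F j (Sx T x w)ᶜ else 0) =
            ∑ s ∈ univ.filter (fun s : Finset (Fin 4) => s.card = 2), F j s * F j sᶜ := by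
          rw [← Finset.sum_fiberwise_of_maps_to (s := univ.filter (fun w => (Sx T x w).card = 2))
            (t := univ.filter (fun s : Finset (Fin 4) => s.card = 2)) (g := fun w => Sx T x w)
            (fun w hw => by
              rw [Finset.mem_filter] at hw ⊢
              exact ⟨Finset.mem_univ _, hw.2⟩)]
          apply Finset.sum_congr rfl
          intro s hs
          rw [Finset.mem_filter] at hs
          have e2 : ∑ w ∈ (univ.filter (fun w => (Sx T x w).card = 2)).filter
              (fun w => Sx T x w = s), (if j ∈ T w then F j (Sx T x w)ᶜ else 0) =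
              ∑ w ∈ univ.filter (fun w => j ∈ T w ∧ Sx T x w = s), F j sᶜ := by
            rw [← Finset.sum_filter]
            apply Finset.sum_congr
            · ext w
              simp only [Finset.mem_filter, Finset.mem_univ, true_and]
              constructor
              · rintro ⟨⟨_, h4⟩, h5⟩
                exact ⟨h5, h4⟩
              · rintro ⟨h4, h5⟩
                exact ⟨⟨by rw [h5]; exact hs.2, h5⟩, h4⟩
            · intro w hw
              rw [Finset.mem_filter] at hw
              rw [hw.2.2]
          rw [e2, Finset.sum_const, nsmul_eq_mul]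
        rw [e1]
        refine (KC4_six (F j) (hFnn j)).trans ?_
        have e3 : ∑ s ∈ univ.filter (fun s : Finset (Fin 4) => s.card = 2), F j s ≤
            Fintype.card V * pr T j := by
          have e4 : (Fintype.card V : ℝ) * pr T j = ((univ.filter (fun v => j ∈ T v)).card : ℝ) := by
            rw [pr]
            field_simp
          rw [e4]
          have e5 : (univ.filter (fun v => j ∈ T v)).card =
              ∑ s : Finset (Fin 4), ((univ.filter (fun v => j ∈ T v)).filter
                (fun v => Sx T x v = s)).card :=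
            Finset.card_eq_sum_card_fiberwise (fun _ _ => Finset.mem_univ _)
          rw [e5]
          push_cast
          calc ∑ s ∈ univ.filter (fun s : Finset (Fin 4) => s.card = 2), F j s
              ≤ ∑ s : Finset (Fin 4), F j s :=
                Finset.sum_le_sum_of_subset_of_nonneg (Finset.filter_subset _ _)
                  (fun s _ _ => hFnn j s)
            _ = _ := by
                apply Finset.sum_congr rfl
                intro s _
                rw [hF, Finset.filter_filter]
        have e6 : 0 ≤ ∑ s ∈ univ.filter (fun s : Finset (Fin 4) => s.card = 2), F j s :=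
          Finset.sum_nonneg (fun s _ => hFnn j s)
        have e7 := pow_le_pow_left₀ e6 e3 2
        linarith
      calc ∑ w ∈ univ.filter (fun w => (Sx T x w).card = 2), g w
          ≤ ∑ w ∈ univ.filter (fun w => (Sx T x w).card = 2), ∑ j ∈ M \ univ.image x,
            (if j ∈ T w then F j (Sx T x w)ᶜ else 0) := Finset.sum_le_sum (fun w _ => hgle w)
        _ = ∑ j ∈ M \ univ.image x, ∑ w ∈ univ.filter (fun w => (Sx T x w).card = 2),
            (if j ∈ T w then F j (Sx T x w)ᶜ else 0) := Finset.sum_comm
        _ ≤ ∑ j ∈ M \ univ.image x, (Fintype.card V * pr T j) ^ 2 / 2 :=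
            Finset.sum_le_sum (fun j _ => hfix j)
        _ = (Fintype.card V : ℝ) ^ 2 * (p2 M T x / 2) := by
            rw [p2, Finset.sum_div, Finset.mul_sum]
            apply Finset.sum_congr rfl
            intro j _
            ring
    have hnA : (nA T x : ℝ) ≤ Fintype.card V := by
      have : nA T x ≤ Fintype.card V := by
        rw [nA]
        exact (Finset.card_le_univ _)
      exact_mod_cast this
    have hfin : c * (1 - 6 * c) * (Fintype.card V : ℝ) ^ 2 ≤
        (nA T x : ℝ) ^ 2 + κ * (Fintype.card V : ℝ) ^ 2 +
          (Fintype.card V : ℝ) ^ 2 * (p2 M T x / 2) := by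
      have h5 : κ * nA T x * Fintype.card V ≤ κ * (Fintype.card V : ℝ) ^ 2 := by
        have := mul_le_mul_of_nonneg_right (mul_le_mul_of_nonneg_left hnA hS.kap) hN.le
        nlinarith
      linarith
    have h6 : c * (1 - 6 * c) = c * (1 - 6 * c) * (Fintype.card V : ℝ) ^ 2 /
        (Fintype.card V : ℝ) ^ 2 := by
      field_simp
    have h7 : ((nA T x : ℝ) / Fintype.card V) ^ 2 + p2 M T x / 2 + κ =
        ((nA T x : ℝ) ^ 2 + κ * (Fintype.card V : ℝ) ^ 2 +
          (Fintype.card V : ℝ) ^ 2 * (p2 M T x / 2)) / (Fintype.card V : ℝ) ^ 2 := by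
      field_simp
      ring
    rw [h6, h7]
    exact div_le_div_of_nonneg_right hfin (by positivity)
  · -- the hypothesis of KC2
    intro w hw
    have e1 : (ns T x (Sx T x w)ᶜ : ℝ) = g w +
        ((univ.filter (fun v => Sx T x v = (Sx T x w)ᶜ ∧ ¬ (T w ∩ T v).Nonempty)).card : ℝ) := by
      rw [hg, ns]
      have := Finset.card_filter_add_card_filter_not
        (s := univ.filter (fun v => Sx T x v = (Sx T x w)ᶜ)) (fun v => (T w ∩ T v).Nonempty)
      rw [Finset.filter_filter, Finset.filter_filter] at this
      rw [← this]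
      push_cast
      rfl
    have e2 : ((univ.filter (fun v => ¬ W w v)).card : ℝ) ≤ c * Fintype.card V := by
      have h3 := Finset.card_filter_add_card_filter_not (s := (univ : Finset V)) (fun v => W w v)
      have h4 := hS.low w
      rw [dW] at h4
      have h5 : ((univ.filter (fun v => W w v)).card : ℝ) +
          ((univ.filter (fun v => ¬ W w v)).card : ℝ) = Fintype.card V := by
        rw [Finset.card_univ] at h3
        exact_mod_cast h3
      have h6 : ((univ.filter (fun v => W w v)).card : ℝ) ≥ (1 - c) * Fintype.card V := by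
        convert h4
      linarith
    have e3 : (univ.filter (fun v => 3 ≤ (Sx T x v).card ∧ ¬ W w v)).card +
        (univ.filter (fun v => Sx T x v = (Sx T x w)ᶜ ∧ ¬ (T w ∩ T v).Nonempty)).card ≤
        (univ.filter (fun v => ¬ W w v)).card := by
      rw [← Finset.card_union_of_disjoint]
      · apply Finset.card_le_card
        intro v hv
        rw [Finset.mem_union, Finset.mem_filter, Finset.mem_filter] at hv
        rw [Finset.mem_filter]
        refine ⟨Finset.mem_univ _, ?_⟩
        rcases hv with hv | hv
        · exact hv.2.2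
        · intro hW
          exact hv.2.2 (hS.meet w v hW)
      · rw [Finset.disjoint_left]
        intro v hv hv'
        rw [Finset.mem_filter] at hv hv'
        have h3 := hv.2.1
        rw [hv'.2.1, Finset.card_compl, hw, Fintype.card_fin] at h3
        omega
    have e4 : ((univ.filter (fun v => 3 ≤ (Sx T x v).card ∧ ¬ W w v)).card : ℝ) +
        ((univ.filter (fun v => Sx T x v = (Sx T x w)ᶜ ∧ ¬ (T w ∩ T v).Nonempty)).card : ℝ) ≤
        ((univ.filter (fun v => ¬ W w v)).card : ℝ) := by
      exact_mod_cast e3
    linarith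

end Pool.Agent.Work.MP_1ce445_k6
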