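import Pool.Agent.Work.MP_1ce445_k6.Interface

/-! Block KRL of MP_1ce445_co (range `1/7 ≤ c ≤ 1/6`): the real inequality of the K4 leaf. -/

namespace Pool.Agent.Work.MP_1ce445_k6

open Finset Pool.Agent.Work.MP_1ce445_co_56 Pool.Agent.Work.MP_1ce445_lin

/-- the claim of the docstring: the left side is at most `((2 - m)/4)^4` -/
theorem KRL_aux (m a ρ P : ℝ) (hm0 : 0 ≤ m) (hm : m ≤ 1 / 7) (ha0 : 0 ≤ a) (ha1 : a ≤ 1)
    (hρ : 0 ≤ ρ) (hP : 0 ≤ P) (h1 : a < m → m ^ 2 ≤ a ^ 2 + ρ * a)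
    (h2 : a < m → m ^ 2 ≤ a ^ 2 + P / 2) :
    ((2 - a) / 4) ^ 4 * Real.exp (-(ρ + P / 2)) ≤ ((2 - m) / 4) ^ 4 := by
  rcases le_or_gt m a with hma | ham
  · have he : Real.exp (-(ρ + P / 2)) ≤ 1 := by
      rw [Real.exp_le_one_iff]
      linarith
    have hp : ((2 - a) / 4) ^ 4 ≤ ((2 - m) / 4) ^ 4 :=
      pow_le_pow_left₀ (by linarith) (by linarith) 4
    calc ((2 - a) / 4) ^ 4 * Real.exp (-(ρ + P / 2)) ≤ ((2 - a) / 4) ^ 4 * 1 :=
          mul_le_mul_of_nonneg_left he (by positivity)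
      _ = ((2 - a) / 4) ^ 4 := mul_one _
      _ ≤ _ := hp
  · have h1' := h1 ham
    have h2' := h2 ham
    have hapos : 0 < a := by
      rcases ha0.lt_or_eq with h | h
      · exact h
      · exfalso
        rw [← h] at h1' ham
        nlinarith
    have h2m : 0 < 2 - m := by linarith
    -- key polynomial inequality
    have hkey : 4 * a ≤ (m + a) * (1 + a) * (2 - m) := by
      have e1 : 2 * a * (2 - a) ≤ (m + a) * (2 - m) := by
        nlinarith [mul_nonneg (sub_nonneg.2 ham.le) (by linarith : (0:ℝ) ≤ 2 - m - 2 * a)]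
      have e2 : 4 * a ≤ 2 * a * (2 - a) * (1 + a) := by
        nlinarith [mul_nonneg (mul_nonneg ha0 ha0) (by linarith : (0:ℝ) ≤ 1 - a)]
      have e3 : 2 * a * (2 - a) * (1 + a) ≤ (m + a) * (2 - m) * (1 + a) :=
        mul_le_mul_of_nonneg_right e1 (by linarith)
      nlinarith
    have hexp : 4 * ((m - a) / (2 - m)) ≤ ρ + P / 2 := by
      have hρa : (m ^ 2 - a ^ 2) / a ≤ ρ := by
        rw [div_le_iff₀ hapos]
        linarith
      have hPa : m ^ 2 - a ^ 2 ≤ P / 2 := by linarith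
      have hq : 4 * ((m - a) / (2 - m)) ≤ (m ^ 2 - a ^ 2) / a + (m ^ 2 - a ^ 2) := by
        have e4 : (m ^ 2 - a ^ 2) / a + (m ^ 2 - a ^ 2) =
            (m - a) * ((m + a) * (1 + a)) / a := by
          field_simp
          ring
        rw [e4, ← mul_div_assoc, div_le_div_iff₀ h2m hapos]
        have := mul_le_mul_of_nonneg_left hkey (sub_nonneg.2 ham.le)
        nlinarith
      linarith
    have hx : (2 - a) / (2 - m) ≤ Real.exp ((m - a) / (2 - m)) := by
      have e5 : (2 - a) / (2 - m) = (m - a) / (2 - m) + 1 := by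
        field_simp
        ring
      rw [e5]
      exact Real.add_one_le_exp _
    have hx4 : ((2 - a) / (2 - m)) ^ 4 ≤ Real.exp (ρ + P / 2) := by
      calc ((2 - a) / (2 - m)) ^ 4 ≤ Real.exp ((m - a) / (2 - m)) ^ 4 :=
            pow_le_pow_left₀ (div_nonneg (by linarith) h2m.le) hx 4
        _ = Real.exp (4 * ((m - a) / (2 - m))) := by
            rw [← Real.exp_nat_mul]
            norm_num
        _ ≤ _ := Real.exp_le_exp.2 hexp
    have hfin : (2 - a) ^ 4 * Real.exp (-(ρ + P / 2)) ≤ (2 - m) ^ 4 := by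
      rw [div_pow, div_le_iff₀ (by positivity)] at hx4
      rw [Real.exp_neg, ← div_eq_mul_inv, div_le_iff₀ (Real.exp_pos _)]
      linarith
    have e6 : ((2 - a) / 4) ^ 4 * Real.exp (-(ρ + P / 2)) =
        (2 - a) ^ 4 * Real.exp (-(ρ + P / 2)) / 4 ^ 4 := by
      rw [div_pow]
      ring
    rw [e6, div_pow]
    exact div_le_div_of_nonneg_right hfin (by norm_num)

theorem stmt_KRL : Stmt_KRL := by
  intro c κ a ρ P hc1 hc2 hκ ha0 ha1 hρ hP h1 h2
  set D : ℝ := c * (1 - 6 * c) with hD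
  have hD0 : 0 ≤ D := mul_nonneg (by linarith) (by linarith)
  have hD1 : D ≤ (1 / 7) ^ 2 := by
    have := mul_nonneg (sub_nonneg.2 hc1) (by linarith : (0:ℝ) ≤ 6 * c - 1 / 7)
    rw [hD]
    nlinarith
  set M0 : ℝ := Real.sqrt D with hM0
  have hM0n : 0 ≤ M0 := Real.sqrt_nonneg _
  have hM0s : M0 ^ 2 = D := Real.sq_sqrt hD0
  have hM07 : M0 ≤ 1 / 7 := by
    rw [hM0]
    exact Real.sqrt_le_iff.2 ⟨by norm_num, hD1⟩
  set Q : ℝ := max 0 (D - κ) with hQ
  have hQ0 : 0 ≤ Q := le_max_left _ _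
  have hQD : Q ≤ D := max_le hD0 (by linarith)
  set m : ℝ := Real.sqrt Q with hm
  have hm0 : 0 ≤ m := Real.sqrt_nonneg _
  have hms : m ^ 2 = Q := Real.sq_sqrt hQ0
  have hmM : m ≤ M0 := Real.sqrt_le_sqrt hQD
  have hs0 : 0 ≤ Real.sqrt κ := Real.sqrt_nonneg _
  have hss : Real.sqrt κ ^ 2 = κ := Real.sq_sqrt hκ
  have hMm : M0 ≤ m + Real.sqrt κ := by
    refine abs_le_of_sq_le_sq' ?_ (by linarith) |>.2
    have : D - κ ≤ Q := le_max_right _ _
    nlinarith [mul_nonneg hm0 hs0]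
  have hcl := KRL_aux m a ρ P hm0 (hmM.trans hM07) ha0 ha1 hρ hP
    (fun h => by
      have hQp : 0 < Q := by
        rw [← hms]
        have : 0 < m := lt_of_le_of_lt ha0 h
        positivity
      have hQe : Q = D - κ := by
        rcases max_choice 0 (D - κ) with h' | h'
        · exfalso
          rw [hQ, h'] at hQp
          exact lt_irrefl _ hQp
        · exact h'
      rw [hms, hQe]
      linarith)
    (fun h => by
      have hQp : 0 < Q := by
        rw [← hms]
        have : 0 < m := lt_of_le_of_lt ha0 h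
        positivity
      have hQe : Q = D - κ := by
        rcases max_choice 0 (D - κ) with h' | h'
        · exfalso
          rw [hQ, h'] at hQp
          exact lt_irrefl _ hQp
        · exact h'
      rw [hms, hQe]
      linarith)
  have hlast : ((2 - m) / 4) ^ 4 ≤ ((2 - M0) / 4) ^ 4 + Real.sqrt κ := by
    have hu : (2 - m) / 4 ≤ 1 / 2 := by linarith
    have hv : (2 - M0) / 4 ≤ 1 / 2 := by linarith
    have hv0 : 0 ≤ (2 - M0) / 4 := by linarith
    have huv : (2 - M0) / 4 ≤ (2 - m) / 4 := by linarith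
    have hd : (2 - m) / 4 - (2 - M0) / 4 ≤ Real.sqrt κ := by linarith
    generalize (2 - m) / 4 = u at hu huv hd ⊢
    generalize (2 - M0) / 4 = v at hv hv0 huv hd ⊢
    have hu0 : 0 ≤ u := hv0.trans huv
    have e1 : u ^ 4 - v ^ 4 = (u - v) * ((u + v) * (u ^ 2 + v ^ 2)) := by ring
    have e2 : (u + v) * (u ^ 2 + v ^ 2) ≤ 1 := by
      have a1 : u + v ≤ 1 := by linarith
      have a2 : u ^ 2 + v ^ 2 ≤ 1 := by nlinarith
      calc (u + v) * (u ^ 2 + v ^ 2) ≤ 1 * 1 :=
            mul_le_mul a1 a2 (by positivity) (by norm_num)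
        _ = 1 := one_mul 1
    have e3 : (u - v) * ((u + v) * (u ^ 2 + v ^ 2)) ≤ (u - v) * 1 :=
      mul_le_mul_of_nonneg_left e2 (sub_nonneg.2 huv)
    linarith
  exact hcl.trans hlast

end Pool.Agent.Work.MP_1ce445_k6
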